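import Pool.Agent.E8helper56.ZE.Zero

/-!
Groups with zero entropy actions are hyperlinear or sofic; sufficient conditions.
-/

namespace Pool.Agent.E8helper56.ZE

open scoped Pointwise
open Pool.Agent.H21R2 (IsSofic IsHyperlinear)

/-- Every `g ≠ 1` moves some point of every orbit in a suitable nonempty closed invariant set. -/
def MovesOrbits (G X : Type*) [Group G] [MulAction G X] [TopologicalSpace X] : Prop :=
  ∀ g : G, g ≠ 1 → ∃ S : Set X, IsClosed S ∧ S.Nonempty ∧ (∀ h : G, ∀ x ∈ S, h • x ∈ S) ∧
    ∀ x ∈ S, ∃ h : G, g • h • x ≠ h • x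

section main

variable {G X : Type*} [Group G] [MulAction G X] [MetricSpace X] [CompactSpace X]
  [ContinuousConstSMul G X]

/-- an invariant set as an action -/
def subAct (S : Set X) (hS : ∀ h : G, ∀ x ∈ S, h • x ∈ S) : SubMulAction G X where
  carrier := S
  smul_mem' := fun h x hx => hS h x hx

omit [CompactSpace X] [ContinuousConstSMul G X] in
theorem zero_sub (hz : ZeroEntropy G X) (S : Set X) (hS : ∀ h : G, ∀ x ∈ S, h • x ∈ S) :
    ZeroEntropy G (subAct S hS) := by
  classical
  intro F ε hε c hc n₀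
  obtain ⟨n, hn, h⟩ := hz F ε hε c hc n₀
  refine ⟨n, hn, fun E hE => ?_⟩
  have h1 := h (E.map (Function.Embedding.subtype _)) ?_
  · rwa [Finset.card_map] at h1
  · intro x hx y hy hxy
    rw [Finset.mem_map] at hx hy
    obtain ⟨x', hx', rfl⟩ := hx
    obtain ⟨y', hy', rfl⟩ := hy
    obtain ⟨γ, hγ, hd⟩ := hE x' hx' y' hy' (fun hh => hxy (by rw [hh]))
    exact ⟨γ, hγ, hd⟩

omit [CompactSpace X] in
theorem cont_sub (S : Set X) (hS : ∀ h : G, ∀ x ∈ S, h • x ∈ S) :
    ContinuousConstSMul G (subAct S hS) :=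
  ⟨fun h => Continuous.subtype_mk ((continuous_const_smul h).comp continuous_subtype_val) _⟩

theorem hyperlinear_of_zero (hz : ZeroEntropy G X) (hm : MovesOrbits G X) : IsHyperlinear G := by
  refine hyperlinear_of_local fun g hg => ?_
  obtain ⟨S, hSc, hSn, hSi, hSm⟩ := hm g hg
  have : CompactSpace (subAct S hSi) := isCompact_iff_compactSpace.1 hSc.isCompact
  have := cont_sub S hSi
  refine ⟨subAct S hSi, inferInstance, ⟨⟨hSn.some, hSn.some_mem⟩⟩, ?_⟩
  refine local_of_zero (zero_sub hz S hSi) g fun x => ?_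
  obtain ⟨h, hh⟩ := hSm x.1 x.2
  exact ⟨h, fun heq => hh (congrArg Subtype.val heq)⟩

theorem sofic_of_zero [TotallyDisconnectedSpace X] (hz : ZeroEntropy G X)
    (hm : MovesOrbits G X) : IsSofic G := by
  refine sofic_of_local fun g hg => ?_
  obtain ⟨S, hSc, hSn, hSi, hSm⟩ := hm g hg
  have : CompactSpace (subAct S hSi) := isCompact_iff_compactSpace.1 hSc.isCompact
  have := cont_sub S hSi
  have : TotallyDisconnectedSpace (subAct S hSi) :=
    inferInstanceAs (TotallyDisconnectedSpace {x // x ∈ S})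
  refine ⟨subAct S hSi, inferInstance, ⟨⟨hSn.some, hSn.some_mem⟩⟩, ?_⟩
  refine localZ_of_zero (zero_sub hz S hSi) g fun x => ?_
  obtain ⟨h, hh⟩ := hSm x.1 x.2
  exact ⟨h, fun heq => hh (congrArg Subtype.val heq)⟩

end main

section conditions

variable {G X : Type*} [Group G] [MulAction G X] [TopologicalSpace X]

/-- every `g ≠ 1` moves an almost periodic point -/
theorem moves_of_ap [T2Space X] [ContinuousConstSMul G X]
    (h : ∀ g : G, g ≠ 1 → ∃ x : X, g • x ≠ x ∧
      ∀ y ∈ closure (MulAction.orbit G x), x ∈ closure (MulAction.orbit G y)) :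
    MovesOrbits G X := by
  intro g hg
  obtain ⟨x, hx, hap⟩ := h g hg
  refine ⟨closure (MulAction.orbit G x), isClosed_closure,
    ⟨x, subset_closure (MulAction.mem_orbit_self x)⟩, ?_, ?_⟩
  · intro k y hy
    have h1 : MulAction.orbit G x ⊆ (fun z => k • z) ⁻¹' closure (MulAction.orbit G x) := by
      rintro _ ⟨a, rfl⟩
      exact subset_closure ⟨k * a, mul_smul k a x⟩
    exact (closure_minimal h1 (isClosed_closure.preimage (continuous_const_smul k))) hy
  · intro y hy
    by_contra hcon
    push Not at hcon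
    have h1 : MulAction.orbit G y ⊆ {z | g • z = z} := by
      rintro _ ⟨k, rfl⟩
      exact hcon k
    have h2 : IsClosed {z : X | g • z = z} := isClosed_eq (continuous_const_smul g) continuous_id
    exact hx ((closure_minimal h1 h2) (hap y hy))

/-- no nontrivial normal subgroup has a common fixed point -/
theorem moves_of_normal [Nonempty X]
    (h : ∀ N : Subgroup G, N.Normal → N ≠ ⊥ → ∀ x : X, ∃ k ∈ N, k • x ≠ x) :
    MovesOrbits G X := by
  intro g hg
  refine ⟨Set.univ, isClosed_univ, Set.univ_nonempty, fun _ _ _ => Set.mem_univ _, ?_⟩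
  intro x _
  by_contra hcon
  push Not at hcon
  have hne : Subgroup.normalClosure {g} ≠ ⊥ := by
    intro hb
    have : g ∈ Subgroup.normalClosure {g} :=
      Subgroup.subset_normalClosure (Set.mem_singleton g)
    rw [hb, Subgroup.mem_bot] at this
    exact hg this
  obtain ⟨k, hk, hkx⟩ := h _ Subgroup.normalClosure_normal hne x
  apply hkx
  have hle : Subgroup.normalClosure {g} ≤ MulAction.stabilizer G x := by
    rw [Subgroup.normalClosure, Subgroup.closure_le]
    intro z hz
    rw [Group.mem_conjugatesOfSet_iff] at hz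
    obtain ⟨a, ha, hz⟩ := hz
    rw [Set.mem_singleton_iff] at ha
    subst ha
    rw [isConj_iff] at hz
    obtain ⟨c, rfl⟩ := hz
    rw [SetLike.mem_coe, MulAction.mem_stabilizer_iff, mul_smul, mul_smul, hcon c⁻¹,
      smul_inv_smul]
  exact hle hk

end conditions

section dimension

/-- `r`-separated sets have at most `C r^(-D)` elements -/
def PackBound (X : Type*) [PseudoMetricSpace X] (C D : ℝ) : Prop :=
  ∀ r : ℝ, 0 < r → r ≤ 1 → ∀ E : Finset X, (∀ x ∈ E, ∀ y ∈ E, x ≠ y → r ≤ dist x y) →
    (E.card : ℝ) ≤ C * r ^ (-D)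

theorem totallyDisconnected_of_pack {X : Type*} [MetricSpace X]
    (h : ∀ τ : ℝ, 0 < τ → ∃ C : ℝ, PackBound X C τ) : TotallyDisconnectedSpace X := by
  classical
  refine ⟨fun t _ ht x hx y hy => ?_⟩
  by_contra hxy
  have hd : 0 < dist x y := dist_pos.2 hxy
  obtain ⟨C, hC⟩ := h (1 / 2) (by norm_num)
  -- points at prescribed distances
  have hiv : ∀ u : ℝ, 0 ≤ u → u ≤ dist x y → ∃ z ∈ t, dist x z = u := by
    intro u hu0 hu1
    have h1 := ht.intermediate_value hx hy (f := fun z => dist x z)
      (continuous_const.dist continuous_id).continuousOn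
    have h2 : u ∈ Set.Icc (dist x x) (dist x y) := ⟨by rw [dist_self]; exact hu0, hu1⟩
    exact h1 h2
  -- `N + 1` points with mutual distances at least `dist x y / N`
  have hkey : ∀ N : ℕ, 0 < N → dist x y / N ≤ 1 → (N : ℝ) + 1 ≤ C * (dist x y / N) ^ (-(1 / 2 : ℝ)) := by
    intro N hN hN1
    have hN0 : (0 : ℝ) < N := by exact_mod_cast hN
    have hz : ∀ k : Fin (N + 1), ∃ z ∈ t, dist x z = k.1 * (dist x y / N) := by
      intro k
      apply hiv
      · positivity
      · have : (k.1 : ℝ) ≤ N := by exact_mod_cast Nat.lt_succ_iff.1 k.2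
        rw [← mul_div_assoc, div_le_iff₀ hN0, mul_comm (dist x y)]
        exact mul_le_mul_of_nonneg_right this hd.le
    choose z hz1 hz2 using hz
    have hr : 0 < dist x y / N := by positivity
    have hsep : ∀ k l : Fin (N + 1), k ≠ l → dist x y / N ≤ dist (z k) (z l) := by
      intro k l hkl
      have h1 : |dist x (z k) - dist x (z l)| ≤ dist (z k) (z l) := by
        rw [dist_comm x, dist_comm x]
        exact abs_dist_sub_le _ _ _
      rw [hz2, hz2, ← sub_mul, abs_mul, abs_of_pos hr] at h1
      have h2 : (1 : ℝ) ≤ |(k.1 : ℝ) - l.1| := by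
        have h3 : (k.1 : ℤ) - l.1 ≠ 0 := by
          intro h4
          apply hkl
          ext
          omega
        have h5 : (1 : ℤ) ≤ |(k.1 : ℤ) - l.1| := Int.one_le_abs h3
        exact_mod_cast h5
      nlinarith
    have hinj : Function.Injective z := by
      intro k l hkl
      by_contra hne
      have := hsep k l hne
      rw [hkl, dist_self] at this
      linarith
    have h1 := hC (dist x y / N) hr hN1 (Finset.univ.image z) (by
      intro a ha b hb hab
      rw [Finset.mem_image] at ha hb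
      obtain ⟨k, _, rfl⟩ := ha
      obtain ⟨l, _, rfl⟩ := hb
      exact hsep k l (fun hkl => hab (by rw [hkl])))
    rw [Finset.card_image_of_injective _ hinj, Finset.card_univ, Fintype.card_fin] at h1
    exact_mod_cast h1
  -- contradiction for large `N`
  obtain ⟨N, hN⟩ := exists_nat_gt (max (dist x y) (C ^ 2 / dist x y))
  have hN1 : dist x y < N := lt_of_le_of_lt (le_max_left _ _) hN
  have hN2 : C ^ 2 / dist x y < N := lt_of_le_of_lt (le_max_right _ _) hN
  have hN0 : (0 : ℝ) < N := hd.trans hN1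
  have h1 := hkey N (by exact_mod_cast hN0) (by rw [div_le_one hN0]; exact hN1.le)
  have hr : 0 < dist x y / N := by positivity
  set w : ℝ := (dist x y / N) ^ (-(1 / 2 : ℝ)) with hw
  have hw0 : 0 < w := Real.rpow_pos_of_pos hr _
  have hw2 : w ^ 2 = N / dist x y := by
    rw [hw, ← Real.rpow_natCast, ← Real.rpow_mul hr.le]
    norm_num
    rw [Real.rpow_neg_one, inv_div]
  have hC0 : 0 < C := by
    by_contra hcon
    push Not at hcon
    nlinarith
  have h2 : ((N : ℝ) + 1) ^ 2 ≤ C ^ 2 * (N / dist x y) := by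
    rw [← hw2, ← mul_pow]
    exact pow_le_pow_left₀ (by positivity) h1 2
  rw [div_lt_iff₀ hd] at hN2
  have h3 : C ^ 2 * (N / dist x y) ≤ N * dist x y * (N / dist x y) :=
    mul_le_mul_of_nonneg_right hN2.le (by positivity)
  have h4 : (N : ℝ) * dist x y * (N / dist x y) = N ^ 2 := by field_simp
  nlinarith

end dimension

end Pool.Agent.E8helper56.ZE
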