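import Pool.Agent.E8helper56.ZE.Kern

/-!
The estimates: almost invariance of the kernel, multiplicativity and displacement.
-/

namespace Pool.Agent.E8helper56.ZE

open Finset

section

variable {G X : Type*} [Group G] [MulAction G X] {F : Set G} {d : ℕ → X → X → ℝ} {N : ℕ}
  {p : Fin N → X} {r : ℝ}

theorem sum_ind (B : Finset (Fin N)) :
    ∑ i : Fin N, ∑ _j : Fin N, (if i ∈ B then (1 : ℝ) else 0) = B.card * N := by
  simp only [sum_const, card_univ, Fintype.card_fin, nsmul_eq_mul]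
  rw [← mul_sum, sum_ite_mem, univ_inter]
  simp [mul_comm]

theorem sum_ind' (B : Finset (Fin N)) :
    ∑ _i : Fin N, ∑ j : Fin N, (if j ∈ B then (1 : ℝ) else 0) = B.card * N := by
  rw [sum_comm]; exact sum_ind B

theorem sum_const2 (x : ℝ) : ∑ _i : Fin N, ∑ _j : Fin N, x = x * (N : ℝ) ^ 2 := by
  simp only [sum_const, card_univ, Fintype.card_fin, nsmul_eq_mul]; ring

theorem sq_sub_le_one {x y : ℝ} (hx : 0 ≤ x) (hx1 : x ≤ 1) (hy : 0 ≤ y) (hy1 : y ≤ 1) :
    (x - y) ^ 2 ≤ 1 := by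
  have h1 : x - y ≤ 1 := by linarith
  have h2 : -1 ≤ x - y := by linarith
  nlinarith

theorem ker_diff (hr : 0 < r) (h : Gauge (G := G) F d) (n : ℕ) (i i' j : Fin N) {s : ℝ}
    (hs : d n (p i) (p i') ≤ s) : |ker d r p n i j - ker d r p n i' j| ≤ s / r := by
  refine (tent_lip hr _ _).trans ?_
  apply div_le_div_of_nonneg_right _ hr.le
  have h1 := h.tri n (p i) (p i') (p j)
  have h2 := h.tri n (p i') (p i) (p j)
  rw [h.symm n (p i') (p i)] at h2
  rw [abs_le]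
  constructor <;> linarith

/-- almost invariance of the kernel -/
theorem est1 (h : Gauge (G := G) F d) (hr : 0 < r) {m M : ℕ} (hM : m + 2 ≤ M) {a : G} (ha : a ∈ F)
    (ha' : a⁻¹ ∈ F) (ρ : Equiv.Perm (Fin N)) {δ : ℝ} {β : ℝ}
    (hβ : ((univ.filter fun i => ¬ d M (p (ρ i)) (a⁻¹ • p i) ≤ 2 * δ).card : ℝ) ≤ β) :
    ∑ i, ∑ j, (ker d r p (m + 1) (ρ i) (ρ j) - ker d r p (m + 1) i j) ^ 2 ≤
      2 * (4 * δ / r) ^ 2 * (N : ℝ) ^ 2 + 2 * (ksum d r p m - ksum d r p (m + 2)) + 2 * β * N := by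
  classical
  set B : Finset (Fin N) := univ.filter fun i => ¬ d M (p (ρ i)) (a⁻¹ • p i) ≤ 2 * δ with hB
  have hpt : ∀ i j, (ker d r p (m + 1) (ρ i) (ρ j) - ker d r p (m + 1) i j) ^ 2 ≤
      2 * (4 * δ / r) ^ 2 + 2 * (ker d r p m i j ^ 2 - ker d r p (m + 2) i j ^ 2) +
        ((if i ∈ B then (1 : ℝ) else 0) + (if j ∈ B then (1 : ℝ) else 0)) := by
    intro i j
    have hk1 : ker d r p (m + 1) i j ≤ ker d r p m i j := ker_anti h hr m i j
    have hk2 : ker d r p (m + 2) i j ≤ ker d r p (m + 1) i j := ker_anti h hr (m + 1) i j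
    have hk0 : 0 ≤ ker d r p (m + 2) i j := ker_nonneg _ _ _
    have hdiff : 0 ≤ ker d r p m i j ^ 2 - ker d r p (m + 2) i j ^ 2 := by
      have := pow_le_pow_left₀ hk0 (hk2.trans hk1) 2
      linarith
    have hone := sq_sub_le_one (ker_nonneg (d := d) (r := r) (p := p) (m + 1) (ρ i) (ρ j))
      (ker_le_one _ _ _) (ker_nonneg (d := d) (r := r) (p := p) (m + 1) i j) (ker_le_one _ _ _)
    have h4 : 0 ≤ 2 * (4 * δ / r) ^ 2 := by positivity
    by_cases hi : i ∈ B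
    · rw [if_pos hi]
      have : (0 : ℝ) ≤ if j ∈ B then (1 : ℝ) else 0 := by split_ifs <;> norm_num
      linarith
    by_cases hj : j ∈ B
    · rw [if_pos hj, if_neg hi]
      linarith
    rw [if_neg hi, if_neg hj]
    have hi' : d M (p (ρ i)) (a⁻¹ • p i) ≤ 2 * δ := by
      by_contra hcon; exact hi (mem_filter.2 ⟨mem_univ _, hcon⟩)
    have hj' : d M (p (ρ j)) (a⁻¹ • p j) ≤ 2 * δ := by
      by_contra hcon; exact hj (mem_filter.2 ⟨mem_univ _, hcon⟩)
    have hi2 := (h.mono_le (show m + 1 ≤ M by omega) (p (ρ i)) (a⁻¹ • p i)).trans hi'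
    have hj2 := (h.mono_le (show m + 1 ≤ M by omega) (p (ρ j)) (a⁻¹ • p j)).trans hj'
    set u := d (m + 1) (p (ρ i)) (p (ρ j)) with hu
    set v := d (m + 1) (a⁻¹ • p i) (a⁻¹ • p j) with hv
    have huv : |u - v| ≤ 4 * δ := by
      have t1 := h.tri (m + 1) (p (ρ i)) (a⁻¹ • p i) (p (ρ j))
      have t2 := h.tri (m + 1) (a⁻¹ • p i) (a⁻¹ • p j) (p (ρ j))
      have t3 := h.tri (m + 1) (a⁻¹ • p i) (p (ρ i)) (a⁻¹ • p j)
      have t4 := h.tri (m + 1) (p (ρ i)) (p (ρ j)) (a⁻¹ • p j)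
      rw [h.symm (m + 1) (a⁻¹ • p j)] at t2
      rw [h.symm (m + 1) (a⁻¹ • p i) (p (ρ i))] at t3
      rw [abs_le]
      constructor <;> linarith
    have hv1 : v ≤ d (m + 2) (p i) (p j) := h.shift a⁻¹ ha' (m + 1) (p i) (p j)
    have hv2 : d m (p i) (p j) ≤ v := by
      have := h.shift a ha m (a⁻¹ • p i) (a⁻¹ • p j)
      rwa [smul_inv_smul, smul_inv_smul] at this
    have k1 : ker d r p (m + 2) i j ≤ tent r v := tent_anti hr hv1
    have k2 : tent r v ≤ ker d r p m i j := tent_anti hr hv2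
    have k3 : |ker d r p (m + 1) (ρ i) (ρ j) - tent r v| ≤ 4 * δ / r := by
      refine (tent_lip hr u v).trans ?_
      exact div_le_div_of_nonneg_right huv hr.le
    have k4 : |tent r v - ker d r p (m + 1) i j| ≤ ker d r p m i j - ker d r p (m + 2) i j := by
      rw [abs_le]
      constructor <;> linarith
    have k5 : (ker d r p m i j - ker d r p (m + 2) i j) ^ 2 ≤
        ker d r p m i j ^ 2 - ker d r p (m + 2) i j ^ 2 := by nlinarith
    have k6 : (ker d r p (m + 1) (ρ i) (ρ j) - tent r v) ^ 2 ≤ (4 * δ / r) ^ 2 :=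
      sq_le_sq' (by linarith [(abs_le.1 k3).1]) (abs_le.1 k3).2
    have k7 : (tent r v - ker d r p (m + 1) i j) ^ 2 ≤
        (ker d r p m i j - ker d r p (m + 2) i j) ^ 2 :=
      sq_le_sq' (by linarith [(abs_le.1 k4).1]) (abs_le.1 k4).2
    nlinarith [sq_nonneg ((ker d r p (m + 1) (ρ i) (ρ j) - tent r v) -
      (tent r v - ker d r p (m + 1) i j))]
  calc ∑ i, ∑ j, (ker d r p (m + 1) (ρ i) (ρ j) - ker d r p (m + 1) i j) ^ 2
      ≤ ∑ i, ∑ j, (2 * (4 * δ / r) ^ 2 + 2 * (ker d r p m i j ^ 2 - ker d r p (m + 2) i j ^ 2) +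
        ((if i ∈ B then (1 : ℝ) else 0) + (if j ∈ B then (1 : ℝ) else 0))) :=
        sum_le_sum fun i _ => sum_le_sum fun j _ => hpt i j
    _ = 2 * (4 * δ / r) ^ 2 * (N : ℝ) ^ 2 + 2 * (ksum d r p m - ksum d r p (m + 2)) +
        (B.card * N + B.card * N) := by
        simp only [sum_add_distrib]
        rw [sum_ind, sum_ind', sum_const2, ksum, ksum]
        simp only [← mul_sum, sum_sub_distrib]
    _ ≤ _ := by
        have : (0 : ℝ) ≤ N := Nat.cast_nonneg _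
        nlinarith

/-- multiplicativity -/
theorem est2 (h : Gauge (G := G) F d) (hr : 0 < r) {n M : ℕ} (hM : n + 1 ≤ M) {a b : G}
    (hb : b⁻¹ ∈ F) (ρa ρb ρc : Equiv.Perm (Fin N)) {δ : ℝ} {β : ℝ}
    (hβa : ((univ.filter fun i => ¬ d M (p (ρa i)) (a⁻¹ • p i) ≤ 2 * δ).card : ℝ) ≤ β)
    (hβb : ((univ.filter fun i => ¬ d M (p (ρb i)) (b⁻¹ • p i) ≤ 2 * δ).card : ℝ) ≤ β)
    (hβc : ((univ.filter fun i => ¬ d M (p (ρc i)) ((a * b)⁻¹ • p i) ≤ 2 * δ).card : ℝ) ≤ β) :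
    ∑ i, ∑ j, (ker d r p n (ρc i) j - ker d r p n (ρb (ρa i)) j) ^ 2 ≤
      (6 * δ / r) ^ 2 * (N : ℝ) ^ 2 + 3 * β * N := by
  classical
  set Ba : Finset (Fin N) := univ.filter fun i => ¬ d M (p (ρa i)) (a⁻¹ • p i) ≤ 2 * δ with hBa
  set Bb : Finset (Fin N) := univ.filter fun i => ¬ d M (p (ρb i)) (b⁻¹ • p i) ≤ 2 * δ with hBb
  set Bc : Finset (Fin N) := univ.filter fun i => ¬ d M (p (ρc i)) ((a * b)⁻¹ • p i) ≤ 2 * δ with hBc
  set Bd : Finset (Fin N) := Bb.map ρa.symm.toEmbedding with hBd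
  have hpt : ∀ i j, (ker d r p n (ρc i) j - ker d r p n (ρb (ρa i)) j) ^ 2 ≤
      (6 * δ / r) ^ 2 + ((if i ∈ Ba then (1 : ℝ) else 0) + (if i ∈ Bd then (1 : ℝ) else 0) +
        (if i ∈ Bc then (1 : ℝ) else 0)) := by
    intro i j
    have hone := sq_sub_le_one (ker_nonneg (d := d) (r := r) (p := p) n (ρc i) j)
      (ker_le_one _ _ _) (ker_nonneg (d := d) (r := r) (p := p) n (ρb (ρa i)) j) (ker_le_one _ _ _)
    have h4 : 0 ≤ (6 * δ / r) ^ 2 := by positivity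
    have n1 : (0 : ℝ) ≤ if i ∈ Ba then (1 : ℝ) else 0 := by split_ifs <;> norm_num
    have n2 : (0 : ℝ) ≤ if i ∈ Bd then (1 : ℝ) else 0 := by split_ifs <;> norm_num
    have n3 : (0 : ℝ) ≤ if i ∈ Bc then (1 : ℝ) else 0 := by split_ifs <;> norm_num
    by_cases hia : i ∈ Ba
    · rw [if_pos hia] at n1 ⊢; linarith
    by_cases hid : i ∈ Bd
    · rw [if_pos hid] at n2 ⊢; linarith
    by_cases hic : i ∈ Bc
    · rw [if_pos hic] at n3 ⊢; linarith
    rw [if_neg hia, if_neg hid, if_neg hic]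
    have h1 : d M (p (ρa i)) (a⁻¹ • p i) ≤ 2 * δ := by
      by_contra hcon; exact hia (mem_filter.2 ⟨mem_univ _, hcon⟩)
    have h2 : d M (p (ρb (ρa i))) (b⁻¹ • p (ρa i)) ≤ 2 * δ := by
      by_contra hcon
      apply hid
      rw [hBd, mem_map]
      exact ⟨ρa i, mem_filter.2 ⟨mem_univ _, hcon⟩, by simp⟩
    have h3 : d M (p (ρc i)) ((a * b)⁻¹ • p i) ≤ 2 * δ := by
      by_contra hcon; exact hic (mem_filter.2 ⟨mem_univ _, hcon⟩)
    have h1' := (h.mono_le hM (p (ρa i)) (a⁻¹ • p i)).trans h1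
    have h2' := (h.mono_le (show n ≤ M by omega) (p (ρb (ρa i))) (b⁻¹ • p (ρa i))).trans h2
    have h3' := (h.mono_le (show n ≤ M by omega) (p (ρc i)) ((a * b)⁻¹ • p i)).trans h3
    have h5 := h.shift b⁻¹ hb n (p (ρa i)) (a⁻¹ • p i)
    rw [mul_inv_rev, mul_smul] at h3'
    have h6 : d n (p (ρc i)) (p (ρb (ρa i))) ≤ 6 * δ := by
      have t1 := h.tri n (p (ρc i)) (b⁻¹ • a⁻¹ • p i) (p (ρb (ρa i)))
      have t2 := h.tri n (b⁻¹ • a⁻¹ • p i) (b⁻¹ • p (ρa i)) (p (ρb (ρa i)))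
      rw [h.symm n (b⁻¹ • a⁻¹ • p i) (b⁻¹ • p (ρa i)), h.symm n (b⁻¹ • p (ρa i)) (p (ρb (ρa i)))] at t2
      linarith
    have h7 := ker_diff hr h n (ρc i) (ρb (ρa i)) j h6
    have h8 := sq_le_sq' (by linarith [(abs_le.1 h7).1]) (abs_le.1 h7).2
    linarith
  have hcd : Bd.card = Bb.card := card_map _
  calc ∑ i, ∑ j, (ker d r p n (ρc i) j - ker d r p n (ρb (ρa i)) j) ^ 2
      ≤ ∑ i, ∑ j, ((6 * δ / r) ^ 2 + ((if i ∈ Ba then (1 : ℝ) else 0) +
        (if i ∈ Bd then (1 : ℝ) else 0) + (if i ∈ Bc then (1 : ℝ) else 0))) :=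
        sum_le_sum fun i _ => sum_le_sum fun j _ => hpt i j
    _ = (6 * δ / r) ^ 2 * (N : ℝ) ^ 2 + (Ba.card * N + Bb.card * N + Bc.card * N) := by
        simp only [sum_add_distrib]
        rw [sum_ind, sum_ind, sum_ind, sum_const2, hcd]
    _ ≤ _ := by
        have : (0 : ℝ) ≤ N := Nat.cast_nonneg _
        nlinarith

/-- row mass -/
noncomputable def row (d : ℕ → X → X → ℝ) (r : ℝ) (p : Fin N → X) (n : ℕ) (i : Fin N) : ℝ :=
  ∑ j, ker d r p n i j ^ 2

theorem row_nonneg (n : ℕ) (i : Fin N) : 0 ≤ row d r p n i := sum_nonneg fun _ _ => sq_nonneg _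

theorem row_le (n : ℕ) (i : Fin N) : row d r p n i ≤ N := by
  calc row d r p n i ≤ ∑ _j : Fin N, (1 : ℝ) :=
        sum_le_sum fun j _ => pow_le_one₀ (ker_nonneg _ _ _) (ker_le_one _ _ _)
    _ = N := by simp

theorem row_change (n : ℕ) (ρ : Equiv.Perm (Fin N)) {θ : ℝ} (hθ : 0 < θ) :
    ∑ i, |row d r p n (ρ i) - row d r p n i| ≤
      (∑ i, ∑ j, (ker d r p n (ρ i) (ρ j) - ker d r p n i j) ^ 2) / (2 * θ) +
        2 * θ * ksum d r p n := by
  have h1 : ∀ i, |row d r p n (ρ i) - row d r p n i| ≤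
      ∑ j, ((ker d r p n (ρ i) (ρ j) - ker d r p n i j) ^ 2 / (2 * θ) +
        θ * (ker d r p n (ρ i) (ρ j) ^ 2 + ker d r p n i j ^ 2)) := by
    intro i
    have e1 : row d r p n (ρ i) = ∑ j, ker d r p n (ρ i) (ρ j) ^ 2 :=
      (Equiv.sum_comp ρ fun j => ker d r p n (ρ i) j ^ 2).symm
    rw [e1, row, ← sum_sub_distrib]
    refine (abs_sum_le_sum_abs _ _).trans (sum_le_sum fun j _ => ?_)
    set x := ker d r p n (ρ i) (ρ j)
    set y := ker d r p n i j
    have h2 : |x ^ 2 - y ^ 2| = |x - y| * |x + y| := by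
      rw [← abs_mul]; congr 1; ring
    rw [h2]
    have h3 : |x - y| * |x + y| ≤ (x - y) ^ 2 / (2 * θ) + θ / 2 * (x + y) ^ 2 := by
      rw [← sq_abs (x - y), ← sq_abs (x + y)]
      have h4 : |x - y| ^ 2 / (2 * θ) + θ / 2 * |x + y| ^ 2 - |x - y| * |x + y| =
          (|x - y| - θ * |x + y|) ^ 2 / (2 * θ) := by
        field_simp; ring
      have h5 : 0 ≤ (|x - y| - θ * |x + y|) ^ 2 / (2 * θ) := by positivity
      linarith
    have h6 : θ / 2 * (x + y) ^ 2 ≤ θ * (x ^ 2 + y ^ 2) := by nlinarith [sq_nonneg (x - y)]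
    linarith
  refine (sum_le_sum fun i _ => h1 i).trans (le_of_eq ?_)
  have e2 : ∑ i, ∑ j, ker d r p n (ρ i) (ρ j) ^ 2 = ksum d r p n := by
    rw [ksum, ← Equiv.sum_comp ρ fun i => ∑ j, ker d r p n i j ^ 2]
    exact sum_congr rfl fun i _ => Equiv.sum_comp ρ fun j => ker d r p n (ρ i) j ^ 2
  simp only [sum_add_distrib, ← sum_div, ← mul_sum]
  rw [e2, ksum]
  ring

/-- displacement -/
theorem est3 (h : Gauge (G := G) F d) (hr : 0 < r) (n : ℕ) (ρ : G → Equiv.Perm (Fin N)) (g : G)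
    (H : Finset G) (B : Finset (Fin N)) {e θ : ℝ} (hθ : 0 < θ)
    (he : ∀ a ∈ H, ∑ i, ∑ j, (ker d r p n (ρ a i) (ρ a j) - ker d r p n i j) ^ 2 ≤ e)
    (hcov : ∀ i, i ∉ B → ∃ a ∈ H, 4 * r ≤ d n (p (ρ g (ρ a i))) (p (ρ a i))) :
    ksum d r p n ≤ B.card * N + H.card * ((∑ i, ∑ j, (ker d r p n (ρ g i) j - ker d r p n i j) ^ 2) +
      e / (2 * θ) + 2 * θ * ksum d r p n) := by
  classical
  set J : Finset (Fin N) := univ.filter fun j => 4 * r ≤ d n (p (ρ g j)) (p j) with hJ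
  -- the displacement is at least the mass of `J`
  have hD : ∑ i ∈ J, row d r p n i ≤ ∑ i, ∑ j, (ker d r p n (ρ g i) j - ker d r p n i j) ^ 2 := by
    refine (sum_le_sum fun i hi => ?_).trans (sum_le_sum_of_subset_of_nonneg (subset_univ J)
      fun i _ _ => sum_nonneg fun j _ => sq_nonneg _)
    refine sum_le_sum fun j _ => ?_
    have hi' : 4 * r ≤ d n (p (ρ g i)) (p i) := (mem_filter.1 hi).2
    by_cases hij : 2 * r ≤ d n (p i) (p j)
    · have : ker d r p n i j = 0 := tent_eq_zero hr hij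
      rw [this]; simp only [ne_eq, OfNat.ofNat_ne_zero, not_false_eq_true, zero_pow]; positivity
    · push Not at hij
      have t1 := h.tri n (p (ρ g i)) (p j) (p i)
      rw [h.symm n (p j)] at t1
      have : ker d r p n (ρ g i) j = 0 := tent_eq_zero hr (by linarith)
      rw [this]; linarith [sq_nonneg (ker d r p n i j)]
  set D := ∑ i, ∑ j, (ker d r p n (ρ g i) j - ker d r p n i j) ^ 2 with hDdef
  have hH : ∀ a ∈ H, ∑ i ∈ univ.filter (fun i => ρ a i ∈ J), row d r p n i ≤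
      D + e / (2 * θ) + 2 * θ * ksum d r p n := by
    intro a ha
    have h1 : ∑ i ∈ univ.filter (fun i => ρ a i ∈ J), row d r p n i ≤
        ∑ i ∈ univ.filter (fun i => ρ a i ∈ J), row d r p n (ρ a i) +
          ∑ i ∈ univ.filter (fun i => ρ a i ∈ J), |row d r p n (ρ a i) - row d r p n i| := by
      rw [← sum_add_distrib]
      refine sum_le_sum fun i _ => ?_
      have := neg_abs_le (row d r p n (ρ a i) - row d r p n i)
      linarith
    have h2 : ∑ i ∈ univ.filter (fun i => ρ a i ∈ J), row d r p n (ρ a i) ≤ D := by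
      refine le_trans (le_of_eq ?_) hD
      refine sum_bij (fun i _ => ρ a i) ?_ ?_ ?_ ?_
      · intro i hi; exact (mem_filter.1 hi).2
      · intro i _ j _ hij; exact (ρ a).injective hij
      · intro j hj; exact ⟨(ρ a).symm j, mem_filter.2 ⟨mem_univ _, by simpa using hj⟩, by simp⟩
      · intro i _; rfl
    have h3 : ∑ i ∈ univ.filter (fun i => ρ a i ∈ J), |row d r p n (ρ a i) - row d r p n i| ≤
        e / (2 * θ) + 2 * θ * ksum d r p n := by
      refine (sum_le_sum_of_subset_of_nonneg (filter_subset _ _) fun i _ _ => abs_nonneg _).trans ?_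
      refine (row_change n (ρ a) hθ).trans ?_
      have := div_le_div_of_nonneg_right (he a ha) (show (0 : ℝ) ≤ 2 * θ by positivity)
      linarith
    linarith
  have hsplit : ksum d r p n ≤ ∑ i ∈ B, row d r p n i +
      ∑ a ∈ H, ∑ i ∈ univ.filter (fun i => ρ a i ∈ J), row d r p n i := by
    have h1 : ksum d r p n = ∑ i, row d r p n i := rfl
    have h2 : ∀ i, row d r p n i ≤ (if i ∈ B then row d r p n i else 0) +
        ∑ a ∈ H, (if ρ a i ∈ J then row d r p n i else 0) := by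
      intro i
      have hnn : ∀ a ∈ H, 0 ≤ (if ρ a i ∈ J then row d r p n i else 0) := fun a _ => by
        split_ifs
        · exact row_nonneg _ _
        · exact le_rfl
      by_cases hi : i ∈ B
      · rw [if_pos hi]
        have := sum_nonneg hnn
        linarith
      · rw [if_neg hi]
        obtain ⟨a, ha, hai⟩ := hcov i hi
        have h3 : ρ a i ∈ J := mem_filter.2 ⟨mem_univ _, hai⟩
        have h4 := single_le_sum hnn ha
        rw [if_pos h3] at h4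
        linarith
    rw [h1]
    refine (sum_le_sum fun i _ => h2 i).trans (le_of_eq ?_)
    rw [sum_add_distrib, sum_ite_mem, univ_inter, sum_comm]
    congr 1
    refine sum_congr rfl fun a _ => ?_
    rw [sum_filter]
  have hB : ∑ i ∈ B, row d r p n i ≤ B.card * N := by
    calc ∑ i ∈ B, row d r p n i ≤ ∑ _i ∈ B, (N : ℝ) := sum_le_sum fun i _ => row_le n i
      _ = B.card * N := by simp
  have hHs : ∑ a ∈ H, ∑ i ∈ univ.filter (fun i => ρ a i ∈ J), row d r p n i ≤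
      H.card * (D + e / (2 * θ) + 2 * θ * ksum d r p n) := by
    calc _ ≤ ∑ _a ∈ H, (D + e / (2 * θ) + 2 * θ * ksum d r p n) := sum_le_sum hH
      _ = _ := by rw [sum_const, nsmul_eq_mul]
  linarith

end

end Pool.Agent.E8helper56.ZE
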