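import Pool.Agent.H21R2.Core

/-!
Increasing sequences of pseudometrics shifted by a group action; maximal separated sets; almost
permutations of maximal separated sets.
-/

namespace Pool.Agent.E8helper56.ZE

open Finset

/-- an increasing sequence of pseudometrics which is shifted by the elements of `F` -/
structure Gauge {G X : Type*} [Group G] [MulAction G X] (F : Set G) (d : ℕ → X → X → ℝ) : Prop where
  nonneg : ∀ n x y, 0 ≤ d n x y
  self : ∀ n x, d n x x = 0
  symm : ∀ n x y, d n x y = d n y x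
  tri : ∀ n x y z, d n x z ≤ d n x y + d n y z
  mono : ∀ n x y, d n x y ≤ d (n + 1) x y
  shift : ∀ a ∈ F, ∀ n x y, d n (a • x) (a • y) ≤ d (n + 1) x y

/-- `E` is `δ`-separated for `d n` -/
def Sep {X : Type*} (d : ℕ → X → X → ℝ) (n : ℕ) (δ : ℝ) (E : Finset X) : Prop :=
  ∀ x ∈ E, ∀ y ∈ E, x ≠ y → δ < d n x y

/-- the separated sets grow subexponentially along a subsequence -/
def Slow {X : Type*} (d : ℕ → X → X → ℝ) : Prop :=
  ∀ δ : ℝ, 0 < δ → ∀ c : ℝ, 0 < c → ∀ n₀ : ℕ, ∃ n, n₀ ≤ n ∧ ∀ E : Finset X, Sep d n δ E →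
    (E.card : ℝ) ≤ Real.exp (c * n)

section

variable {G X : Type*} [Group G] [MulAction G X] {F : Set G} {d : ℕ → X → X → ℝ}

theorem Gauge.mono_le (h : Gauge (G := G) F d) {n m : ℕ} (hnm : n ≤ m) (x y : X) :
    d n x y ≤ d m x y := by
  induction hnm with
  | refl => exact le_rfl
  | step _ ih => exact ih.trans (h.mono _ x y)

theorem Gauge.sep_mono (h : Gauge (G := G) F d) {n m : ℕ} (hnm : n ≤ m) {δ : ℝ} {E : Finset X}
    (hE : Sep d n δ E) : Sep d m δ E :=
  fun x hx y hy hxy => (hE x hx y hy hxy).trans_le (h.mono_le hnm x y)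

/-- `E` is a separated set of maximal cardinality -/
def IsMax (d : ℕ → X → X → ℝ) (n : ℕ) (δ : ℝ) (E : Finset X) : Prop :=
  Sep d n δ E ∧ ∀ E' : Finset X, Sep d n δ E' → E'.card ≤ E.card

theorem exists_max (h : Gauge (G := G) F d) (hs : Slow d) (n : ℕ) {δ : ℝ} (hδ : 0 < δ) :
    ∃ E : Finset X, IsMax d n δ E := by
  obtain ⟨m, hm, hb⟩ := hs δ hδ 1 one_pos n
  obtain ⟨K, hK⟩ := exists_nat_ge (Real.exp (1 * (m : ℝ)))
  have hbd : ∀ E : Finset X, Sep d n δ E → E.card ≤ K := fun E hE => by
    have := hb E (h.sep_mono hm hE)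
    exact_mod_cast this.trans hK
  let S : Set ℕ := {k | ∃ E : Finset X, Sep d n δ E ∧ E.card = k}
  have hne : S.Nonempty := ⟨0, ∅, by intro x hx; simp at hx, rfl⟩
  have hbdd : BddAbove S := ⟨K, by rintro k ⟨E, hE, rfl⟩; exact hbd E hE⟩
  obtain ⟨E, hE, hc⟩ := Nat.sSup_mem hne hbdd
  exact ⟨E, hE, fun E' hE' => by rw [hc]; exact le_csSup hbdd ⟨E', hE', rfl⟩⟩

theorem IsMax.nonempty [Nonempty X] {n : ℕ} {δ : ℝ} {E : Finset X} (h : IsMax d n δ E) :
    0 < E.card := by
  obtain ⟨x⟩ := ‹Nonempty X›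
  have := h.2 {x} (by
    intro a ha b hb hab
    simp only [mem_singleton] at ha hb
    exact absurd (ha.trans hb.symm) hab)
  simpa using this

/-- **Matching.** A separated set injects into a maximal one with displacement at most `δ`. -/
theorem matching (h : Gauge (G := G) F d) {n : ℕ} {δ : ℝ} (hδ : 0 ≤ δ) {E E' : Finset X}
    (hE : IsMax d n δ E) (hE' : Sep d n δ E') :
    ∃ ψ : X → X, Set.InjOn ψ E' ∧ ∀ x ∈ E', ψ x ∈ E ∧ d n x (ψ x) ≤ δ := by
  classical
  let t : {x // x ∈ E'} → Finset X := fun x => E.filter fun e => d n x.1 e ≤ δ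
  have hall : ∀ s : Finset {x // x ∈ E'}, s.card ≤ (s.biUnion t).card := by
    intro s
    by_contra hlt
    push Not at hlt
    set B : Finset X := s.biUnion t with hB
    set A : Finset X := s.image Subtype.val with hA
    have hAcard : A.card = s.card := card_image_of_injective _ Subtype.val_injective
    have hBE : B ⊆ E := by
      intro b hb
      rw [hB, mem_biUnion] at hb
      obtain ⟨a, _, ha⟩ := hb
      exact (mem_filter.1 ha).1
    have hAB : ∀ a ∈ A, ∀ e ∈ E \ B, δ < d n a e := by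
      intro a ha e he
      rw [hA, mem_image] at ha
      obtain ⟨a', ha', rfl⟩ := ha
      rw [mem_sdiff] at he
      by_contra hle
      push Not at hle
      exact he.2 (mem_biUnion.2 ⟨a', ha', mem_filter.2 ⟨he.1, hle⟩⟩)
    have hdisj : Disjoint A (E \ B) := by
      rw [disjoint_left]
      intro a ha he
      have h1 := hAB a ha a he
      rw [h.self] at h1
      linarith
    have hsep : Sep d n δ (A ∪ (E \ B)) := by
      intro x hx y hy hxy
      rw [mem_union] at hx hy
      have hAE : ∀ a ∈ A, a ∈ E' := by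
        intro a ha
        rw [hA, mem_image] at ha
        obtain ⟨a', _, rfl⟩ := ha
        exact a'.2
      rcases hx with hx | hx <;> rcases hy with hy | hy
      · exact hE' x (hAE x hx) y (hAE y hy) hxy
      · exact hAB x hx y hy
      · rw [h.symm]; exact hAB y hy x hx
      · exact hE.1 x (mem_sdiff.1 hx).1 y (mem_sdiff.1 hy).1 hxy
    have h1 := hE.2 _ hsep
    rw [card_union_of_disjoint hdisj, card_sdiff_of_subset hBE, hAcard] at h1
    have h2 := card_le_card hBE
    omega
  obtain ⟨f, hf, hft⟩ := (Finset.all_card_le_biUnion_card_iff_exists_injective t).1 hall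
  refine ⟨fun x => if hx : x ∈ E' then f ⟨x, hx⟩ else x, ?_, ?_⟩
  · intro x hx y hy hxy
    have hx' : x ∈ E' := hx
    have hy' : y ∈ E' := hy
    simp only [dif_pos hx', dif_pos hy'] at hxy
    have := hf hxy
    simpa using this
  · intro x hx
    have := hft ⟨x, hx⟩
    simp only [dif_pos hx]
    exact ⟨(mem_filter.1 this).1, (mem_filter.1 this).2⟩

end

end Pool.Agent.E8helper56.ZE
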