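import Pool.Agent.E8helper56.ZE.Est
import Pool.Agent.H21R2.HCrit

/-!
Hyperlinearity from gauges with slowly growing separated sets.
-/

namespace Pool.Agent.E8helper56.ZE

open Finset Matrix
open Pool.Agent.H21R2 (RelativeHSCriterion hs hs_eq fro2 IsHyperlinear)

section perm

variable {N : ℕ}

/-- permutation matrix: `(pmat σ * M) i j = M (σ i) j` -/
def pmat (σ : Equiv.Perm (Fin N)) : Matrix (Fin N) (Fin N) ℂ :=
  Matrix.of fun i j => if j = σ i then 1 else 0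

theorem pmat_mul (σ : Equiv.Perm (Fin N)) (M : Matrix (Fin N) (Fin N) ℂ) (i j : Fin N) :
    (pmat σ * M) i j = M (σ i) j := by
  simp [Matrix.mul_apply, pmat]

theorem mul_pmat (σ : Equiv.Perm (Fin N)) (M : Matrix (Fin N) (Fin N) ℂ) (i j : Fin N) :
    (M * pmat σ) i (σ j) = M i j := by
  simp [Matrix.mul_apply, pmat]

theorem pmat_one : pmat (1 : Equiv.Perm (Fin N)) = 1 := by
  ext i j
  simp [pmat, Matrix.one_apply, eq_comm]

theorem pmat_mem (σ : Equiv.Perm (Fin N)) : pmat σ ∈ unitaryGroup (Fin N) ℂ := by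
  rw [mem_unitaryGroup_iff]
  ext i j
  rw [pmat_mul, Matrix.star_apply, Matrix.one_apply]
  by_cases hij : i = j
  · subst hij
    simp [pmat]
  · have : ¬ σ i = σ j := fun h => hij (σ.injective h)
    simp [pmat, hij, this]

/-- the permutation matrix as a unitary -/
def umat (σ : Equiv.Perm (Fin N)) : unitaryGroup (Fin N) ℂ := ⟨pmat σ, pmat_mem σ⟩

/-- real matrix as complex matrix -/
def cmat (t : Fin N → Fin N → ℝ) : Matrix (Fin N) (Fin N) ℂ := Matrix.of fun i j => (t i j : ℂ)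

theorem cnorm_sq (x y : ℝ) : ‖((x : ℂ) - (y : ℂ))‖ ^ 2 = (x - y) ^ 2 := by
  rw [← Complex.ofReal_sub, Complex.norm_real, Real.norm_eq_abs, sq_abs]

theorem fro_comm (σ : Equiv.Perm (Fin N)) (t : Fin N → Fin N → ℝ) :
    fro2 ((umat σ).1 * cmat t - cmat t * (umat σ).1) = ∑ i, ∑ j, (t (σ i) (σ j) - t i j) ^ 2 := by
  rw [fro2]
  refine sum_congr rfl fun i _ => ?_
  rw [← Equiv.sum_comp σ]
  refine sum_congr rfl fun j _ => ?_
  rw [Matrix.sub_apply]
  change ‖(pmat σ * cmat t) i (σ j) - (cmat t * pmat σ) i (σ j)‖ ^ 2 = _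
  rw [pmat_mul, mul_pmat]
  exact cnorm_sq _ _

theorem fro_mul (a b c : Equiv.Perm (Fin N)) (t : Fin N → Fin N → ℝ) :
    fro2 (((umat c).1 - (umat a).1 * (umat b).1) * cmat t) =
      ∑ i, ∑ j, (t (c i) j - t (b (a i)) j) ^ 2 := by
  rw [fro2]
  refine sum_congr rfl fun i _ => sum_congr rfl fun j _ => ?_
  rw [Matrix.sub_mul, Matrix.sub_apply, Matrix.mul_assoc]
  change ‖(pmat c * cmat t) i j - (pmat a * (pmat b * cmat t)) i j‖ ^ 2 = _
  rw [pmat_mul, pmat_mul, pmat_mul]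
  exact cnorm_sq _ _

theorem fro_one (a : Equiv.Perm (Fin N)) (t : Fin N → Fin N → ℝ) :
    fro2 (((umat a).1 - 1) * cmat t) = ∑ i, ∑ j, (t (a i) j - t i j) ^ 2 := by
  rw [fro2]
  refine sum_congr rfl fun i _ => sum_congr rfl fun j _ => ?_
  rw [Matrix.sub_mul, Matrix.sub_apply, Matrix.one_mul]
  change ‖(pmat a * cmat t) i j - (cmat t) i j‖ ^ 2 = _
  rw [pmat_mul]
  exact cnorm_sq _ _

end perm

section

variable {G X : Type*} [Group G] [MulAction G X] [Nonempty X]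

/-- the hypothesis: gauges with slowly growing separated sets in which `g` moves points -/
def Local (G X : Type*) [Group G] [MulAction G X] (g : G) : Prop :=
  ∃ (H : Finset G) (s : ℝ), 0 < s ∧ ∀ A : Finset G, ∃ (F : Set G) (d : ℕ → X → X → ℝ),
    (∀ a ∈ A, a ∈ F ∧ a⁻¹ ∈ F) ∧ Gauge (G := G) F d ∧ Slow d ∧
    ∀ x : X, ∃ h ∈ H, s ≤ d 0 (g⁻¹ • h⁻¹ • x) (h⁻¹ • x)

theorem criterion_step (g : G) (hyp : Local G X g) (A0 : Finset G) (hgA : g ∈ A0) (ε : ℝ)
    (hε : 0 < ε) :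
    ∃ (n : ℕ) (φ : G → unitaryGroup (Fin n) ℂ) (T : Matrix (Fin n) (Fin n) ℂ),
      T.IsHermitian ∧ φ 1 = 1 ∧
      0 < hs (((φ g).1 - 1) * T) ∧
      (∀ a ∈ A0, hs ((φ a).1 * T - T * (φ a).1) ≤ ε * hs (((φ g).1 - 1) * T)) ∧
      (∀ a ∈ A0, ∀ b ∈ A0, a * b ∈ A0 →
        hs (((φ (a * b)).1 - (φ a).1 * (φ b).1) * T) ≤ ε * hs (((φ g).1 - 1) * T)) := by
  classical
  obtain ⟨H, s, hs0, hloc⟩ := hyp
  obtain ⟨F, d, hF, h, hslow, hcov⟩ := hloc (A0 ∪ H)
  have hFA : ∀ a ∈ A0, a ∈ F ∧ a⁻¹ ∈ F := fun a ha => hF a (mem_union_left _ ha)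
  have hFH : ∀ a ∈ H, a ∈ F ∧ a⁻¹ ∈ F := fun a ha => hF a (mem_union_right _ ha)
  -- parameters
  have hk : (1 : ℝ) ≤ H.card := by
    obtain ⟨x⟩ := ‹Nonempty X›
    obtain ⟨a, ha, _⟩ := hcov x
    have : 0 < H.card := card_pos.2 ⟨a, ha⟩
    exact_mod_cast this
  obtain ⟨k, hkdef⟩ : ∃ k : ℝ, (H.card : ℝ) = k := ⟨_, rfl⟩
  rw [hkdef] at hk
  set r : ℝ := s / 8 with hr
  have hr0 : 0 < r := by positivity
  set η : ℝ := min (1 / 2) (min (1 / (160 * k ^ 2)) (ε ^ 2 / (10 * k))) with hη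
  have hη0 : 0 < η := by
    rw [hη]; refine lt_min (by norm_num) (lt_min (by positivity) (by positivity))
  have hη1 : η ≤ 1 / 2 := min_le_left _ _
  have hη2 : η ≤ 1 / (160 * k ^ 2) := (min_le_right _ _).trans (min_le_left _ _)
  have hη3 : η ≤ ε ^ 2 / (10 * k) := (min_le_right _ _).trans (min_le_right _ _)
  obtain ⟨n₁, hn₁, hK⟩ := hslow (r / 2) (by positivity) (η / 4) (by positivity) 4
  set K : ℝ := Real.exp (η / 4 * n₁) with hKdef
  have hK1 : 1 ≤ K := Real.one_le_exp (by positivity)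
  set t : ℝ := η / (72 * K) with ht
  have ht0 : 0 < t := by positivity
  have ht1 : t ≤ 1 := by
    rw [ht, div_le_one (by positivity)]; nlinarith
  set δ : ℝ := min (s / 16) (r * t) with hδ
  have hδ0 : 0 < δ := lt_min (by positivity) (by positivity)
  have hδ1 : δ ≤ s / 16 := min_le_left _ _
  have hδ2 : δ / r ≤ t := by
    rw [div_le_iff₀ hr0, mul_comm]; exact min_le_right _ _
  set ε' : ℝ := min (η / (6 * K)) (1 / (16 * k * K)) with hε'
  have hε'0 : 0 < ε' := lt_min (by positivity) (by positivity)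
  have hε'1 : ε' ≤ η / (6 * K) := min_le_left _ _
  have hε'2 : ε' ≤ 1 / (16 * k * K) := min_le_right _ _
  obtain ⟨M, hM, N, hN, p, -, ρ, hρ1, hρ⟩ := exists_perms h hslow hδ0 hε'0 n₁
  have hN0 : (0 : ℝ) < N := by exact_mod_cast hN
  -- the flat place
  have hlow := ksum_lower (p := p) h hr0 n₁ hK
  have hexp : Real.exp (-(η / 4 * n₁)) = K⁻¹ := by rw [Real.exp_neg]
  obtain ⟨m, hm, hflat⟩ := exists_flat (fun n => ksum d r p n) (fun n => ksum_anti h hr0 n)
    (B := (N : ℝ) ^ 2) (η := η) (by positivity) (ksum_le 0) hη0 (by linarith) hn₁ (by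
      rw [hexp, ← div_eq_mul_inv, div_le_iff₀ (by positivity), mul_comm]
      exact hlow)
  have hanti : ∀ a b : ℕ, a ≤ b → ksum d r p b ≤ ksum d r p a := by
    intro a b hab
    induction hab with
    | refl => exact le_rfl
    | step _ ih => exact (ksum_anti h hr0 _).trans ih
  set c : ℝ := ksum d r p (m + 1) with hc
  have hNc : (N : ℝ) ^ 2 ≤ K * c :=
    hlow.trans (mul_le_mul_of_nonneg_left (hanti (m + 1) n₁ (by omega)) (by positivity))
  have hc0 : 0 < c := by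
    have : 0 < K * c := lt_of_lt_of_le (by positivity) hNc
    have hK0 : 0 < K := by linarith
    exact (mul_pos_iff_of_pos_left hK0).1 this
  have hcm : ksum d r p m - ksum d r p (m + 2) ≤ 2 * η * c := by
    have h1 : (1 - η) * ksum d r p m ≤ ksum d r p (m + 2) := hflat
    have h2 : ksum d r p (m + 2) ≤ c := hanti (m + 1) (m + 2) (by omega)
    have h3 : 0 ≤ ksum d r p m := hc0.le.trans (hanti m (m + 1) (by omega))
    have h4 : ksum d r p m ≤ 2 * c := by nlinarith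
    nlinarith
  -- small terms
  have hKc : 0 < K * c := by positivity
  have hsm1 : (δ / r) ^ 2 * (N : ℝ) ^ 2 ≤ η / 72 * c := by
    have h1 : (δ / r) ^ 2 ≤ t := by
      have : 0 ≤ δ / r := by positivity
      nlinarith
    calc (δ / r) ^ 2 * (N : ℝ) ^ 2 ≤ t * (K * c) := mul_le_mul h1 hNc (by positivity) ht0.le
      _ = η / 72 * c := by rw [ht]; field_simp
  have hsm2 : ε' * (N : ℝ) ^ 2 ≤ η / 6 * c := by
    calc ε' * (N : ℝ) ^ 2 ≤ (η / (6 * K)) * (K * c) :=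
          mul_le_mul hε'1 hNc (by positivity) (by positivity)
      _ = η / 6 * c := by field_simp
  have hsm3 : ε' * (N : ℝ) ^ 2 ≤ 1 / (16 * k) * c := by
    calc ε' * (N : ℝ) ^ 2 ≤ (1 / (16 * k * K)) * (K * c) :=
          mul_le_mul hε'2 hNc (by positivity) (by positivity)
      _ = 1 / (16 * k) * c := by field_simp
  -- the three estimates
  have E1 : ∀ a ∈ A0 ∪ H, ∑ i, ∑ j, (ker d r p (m + 1) (ρ a i) (ρ a j) -
      ker d r p (m + 1) i j) ^ 2 ≤ 5 * η * c := by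
    intro a ha
    have h1 := est1 (p := p) h hr0 (show m + 2 ≤ M by omega) (hF a ha).1 (hF a ha).2 (ρ a)
      (hρ a (hF a ha).1)
    have e1 : 2 * (4 * δ / r) ^ 2 * (N : ℝ) ^ 2 = 32 * ((δ / r) ^ 2 * (N : ℝ) ^ 2) := by ring
    have e2 : 2 * (ε' * N) * N = 2 * (ε' * (N : ℝ) ^ 2) := by ring
    rw [e1, e2] at h1
    have h0 : 0 < η * c := by positivity
    have e3 : η / 72 * c = (η * c) / 72 := by ring
    have e4 : η / 6 * c = (η * c) / 6 := by ring
    have e5 : 2 * η * c = 2 * (η * c) := by ring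
    have e6 : 5 * η * c = 5 * (η * c) := by ring
    rw [e3] at hsm1
    rw [e4] at hsm2
    rw [e5] at hcm
    rw [e6]
    linarith
  have E2 : ∀ a ∈ A0, ∀ b ∈ A0, a * b ∈ A0 → ∑ i, ∑ j, (ker d r p (m + 1) (ρ (a * b) i) j -
      ker d r p (m + 1) (ρ b (ρ a i)) j) ^ 2 ≤ η * c := by
    intro a ha b hb hab
    have h1 := est2 (p := p) h hr0 (show m + 1 + 1 ≤ M by omega) (hFA b hb).2 (ρ a) (ρ b)
      (ρ (a * b)) (hρ a (hFA a ha).1) (hρ b (hFA b hb).1) (hρ (a * b) (hFA _ hab).1)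
    have e1 : (6 * δ / r) ^ 2 * (N : ℝ) ^ 2 = 36 * ((δ / r) ^ 2 * (N : ℝ) ^ 2) := by ring
    have e2 : 3 * (ε' * N) * N = 3 * (ε' * (N : ℝ) ^ 2) := by ring
    rw [e1, e2] at h1
    have e3 : η / 72 * c = (η * c) / 72 := by ring
    have e4 : η / 6 * c = (η * c) / 6 := by ring
    rw [e3] at hsm1
    rw [e4] at hsm2
    linarith
  -- displacement
  set bad : G → Finset (Fin N) := fun a => univ.filter fun i => ¬ d M (p (ρ a i)) (a⁻¹ • p i) ≤ 2 * δ
    with hbad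
  set B : Finset (Fin N) := H.biUnion fun a => bad a ∪ (bad g).map (ρ a).symm.toEmbedding with hB
  have hgF := hFA g hgA
  have hBcard : (B.card : ℝ) ≤ 2 * k * (ε' * N) := by
    have h1 : B.card ≤ ∑ a ∈ H, (bad a ∪ (bad g).map (ρ a).symm.toEmbedding).card := card_biUnion_le
    have h2 : ∀ a ∈ H, ((bad a ∪ (bad g).map (ρ a).symm.toEmbedding).card : ℝ) ≤ 2 * (ε' * N) := by
      intro a ha
      have h3 := card_union_le (bad a) ((bad g).map (ρ a).symm.toEmbedding)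
      rw [card_map] at h3
      have h4 : ((bad a ∪ (bad g).map (ρ a).symm.toEmbedding).card : ℝ) ≤
        (bad a).card + (bad g).card := by exact_mod_cast h3
      have h5 := hρ a (hFH a ha).1
      have h6 := hρ g hgF.1
      have h7 : ((bad a).card : ℝ) ≤ ε' * N := h5
      have h8 : ((bad g).card : ℝ) ≤ ε' * N := h6
      linarith
    calc (B.card : ℝ) ≤ ∑ a ∈ H, ((bad a ∪ (bad g).map (ρ a).symm.toEmbedding).card : ℝ) := by
          exact_mod_cast h1
      _ ≤ ∑ _a ∈ H, 2 * (ε' * N) := sum_le_sum h2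
      _ = 2 * k * (ε' * N) := by rw [sum_const, nsmul_eq_mul, hkdef]; ring
  have hcov' : ∀ i, i ∉ B → ∃ a ∈ H, 4 * r ≤ d (m + 1) (p (ρ g (ρ a i))) (p (ρ a i)) := by
    intro i hi
    obtain ⟨a, ha, hsa⟩ := hcov (p i)
    refine ⟨a, ha, ?_⟩
    have hi1 : i ∉ bad a ∪ (bad g).map (ρ a).symm.toEmbedding := fun hh =>
      hi (mem_biUnion.2 ⟨a, ha, hh⟩)
    rw [mem_union, not_or] at hi1
    have g1 : d M (p (ρ a i)) (a⁻¹ • p i) ≤ 2 * δ := by
      by_contra hcon; exact hi1.1 (mem_filter.2 ⟨mem_univ _, hcon⟩)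
    have g2 : d M (p (ρ g (ρ a i))) (g⁻¹ • p (ρ a i)) ≤ 2 * δ := by
      by_contra hcon
      apply hi1.2
      rw [mem_map]
      exact ⟨ρ a i, mem_filter.2 ⟨mem_univ _, hcon⟩, by simp⟩
    have g1a := (h.mono_le (show 1 ≤ M by omega) (p (ρ a i)) (a⁻¹ • p i)).trans g1
    have g1b := (h.mono_le (show 0 ≤ M by omega) (p (ρ a i)) (a⁻¹ • p i)).trans g1
    have g2b := (h.mono_le (show 0 ≤ M by omega) (p (ρ g (ρ a i))) (g⁻¹ • p (ρ a i))).trans g2
    have g3 := h.shift g⁻¹ hgF.2 0 (p (ρ a i)) (a⁻¹ • p i)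
    have t1 := h.tri 0 (g⁻¹ • a⁻¹ • p i) (g⁻¹ • p (ρ a i)) (a⁻¹ • p i)
    have t2 := h.tri 0 (g⁻¹ • p (ρ a i)) (p (ρ g (ρ a i))) (a⁻¹ • p i)
    have t3 := h.tri 0 (p (ρ g (ρ a i))) (p (ρ a i)) (a⁻¹ • p i)
    rw [h.symm 0 (g⁻¹ • a⁻¹ • p i) (g⁻¹ • p (ρ a i))] at t1
    rw [h.symm 0 (g⁻¹ • p (ρ a i)) (p (ρ g (ρ a i)))] at t2
    have g4 := h.mono_le (Nat.zero_le (m + 1)) (p (ρ g (ρ a i))) (p (ρ a i))
    have : 4 * r = s / 2 := by rw [hr]; ring
    simp only [zero_add] at g3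
    linarith
  have E3 := est3 (p := p) h hr0 (m + 1) ρ g H B (e := 5 * η * c) (θ := 1 / (16 * k))
    (by positivity) (fun a ha => E1 a (mem_union_right _ ha)) hcov'
  rw [hkdef, ← hc] at E3
  set D := ∑ i, ∑ j, (ker d r p (m + 1) (ρ g i) j - ker d r p (m + 1) i j) ^ 2 with hD
  have hDc : c ≤ 2 * k * D := by
    have h1 : (B.card : ℝ) * N ≤ c / 8 := by
      calc (B.card : ℝ) * N ≤ 2 * k * (ε' * N) * N := mul_le_mul_of_nonneg_right hBcard hN0.le
        _ = 2 * k * (ε' * (N : ℝ) ^ 2) := by ring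
        _ ≤ 2 * k * (1 / (16 * k) * c) := mul_le_mul_of_nonneg_left hsm3 (by positivity)
        _ = c / 8 := by field_simp; ring
    have h2 : k * (5 * η * c / (2 * (1 / (16 * k)))) ≤ c / 4 := by
      have e1 : k * (5 * η * c / (2 * (1 / (16 * k)))) = η * (40 * k ^ 2 * c) := by
        field_simp; ring
      rw [e1]
      calc η * (40 * k ^ 2 * c) ≤ 1 / (160 * k ^ 2) * (40 * k ^ 2 * c) :=
            mul_le_mul_of_nonneg_right hη2 (by positivity)
        _ = c / 4 := by field_simp; ring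
    have h3 : k * (2 * (1 / (16 * k)) * c) = c / 8 := by field_simp; ring
    have h4 : k * (D + 5 * η * c / (2 * (1 / (16 * k))) + 2 * (1 / (16 * k)) * c) =
      k * D + k * (5 * η * c / (2 * (1 / (16 * k)))) + k * (2 * (1 / (16 * k)) * c) := by ring
    rw [h4, h3] at E3
    linarith
  have hD0 : 0 < D := by
    by_contra hcon
    push Not at hcon
    nlinarith
  have hηD : 5 * η * c ≤ ε ^ 2 * D := by
    calc 5 * η * c ≤ 5 * η * (2 * k * D) := mul_le_mul_of_nonneg_left hDc (by positivity)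
      _ = η * (10 * k * D) := by ring
      _ ≤ ε ^ 2 / (10 * k) * (10 * k * D) := mul_le_mul_of_nonneg_right hη3 (by positivity)
      _ = ε ^ 2 * D := by field_simp
  have hfin : ∀ x : ℝ, x ≤ 5 * η * c → Real.sqrt x ≤ ε * Real.sqrt D := by
    intro x hx
    have : ε * Real.sqrt D = Real.sqrt (ε ^ 2 * D) := by
      rw [Real.sqrt_mul (by positivity), Real.sqrt_sq hε.le]
    rw [this]
    exact Real.sqrt_le_sqrt (hx.trans hηD)
  refine ⟨N, fun a => umat (ρ a), cmat (ker d r p (m + 1)), ?_, ?_, ?_, ?_, ?_⟩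
  · ext i j
    rw [Matrix.conjTranspose_apply]
    change star ((ker d r p (m + 1) j i : ℝ) : ℂ) = ((ker d r p (m + 1) i j : ℝ) : ℂ)
    rw [Complex.star_def, Complex.conj_ofReal, ker, ker, h.symm]
  · change umat (ρ 1) = 1
    rw [hρ1]
    exact Subtype.ext pmat_one
  · change 0 < hs (((umat (ρ g)).1 - 1) * _)
    rw [hs_eq, fro_one]
    exact Real.sqrt_pos.2 hD0
  · intro a ha
    change hs ((umat (ρ a)).1 * _ - _ * (umat (ρ a)).1) ≤ ε * hs (((umat (ρ g)).1 - 1) * _)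
    rw [hs_eq, hs_eq, fro_comm, fro_one]
    exact hfin _ (E1 a (mem_union_left _ ha))
  · intro a ha b hb hab
    change hs (((umat (ρ (a * b))).1 - (umat (ρ a)).1 * (umat (ρ b)).1) * _) ≤
      ε * hs (((umat (ρ g)).1 - 1) * _)
    rw [hs_eq, hs_eq, fro_mul, fro_one]
    refine hfin _ ((E2 a ha b hb hab).trans ?_)
    have : 0 < η * c := by positivity
    linarith

end

theorem hyperlinear_of_local.{u, v} {G : Type u} [Group G]
    (hyp : ∀ g : G, g ≠ 1 → ∃ (X : Type v) (_ : MulAction G X) (_ : Nonempty X), Local G X g) :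
    IsHyperlinear G := by
  refine Pool.Agent.H21R2.hyperlinear_of_criterion ?_
  intro A h1 g hgA hg ε hε
  obtain ⟨X, _, _, hX⟩ := hyp g hg
  exact criterion_step g hX A hgA ε hε

end Pool.Agent.E8helper56.ZE
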