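import Pool.Agent.E8helper56.ZE.Perm

/-!
The kernels `k_n(x, y) = tent (d n x y)` on a finite set of points.
-/

namespace Pool.Agent.E8helper56.ZE

open Finset

/-- `1` up to `r`, `0` from `2 r` on -/
noncomputable def tent (r t : ℝ) : ℝ := max 0 (min 1 ((2 * r - t) / r))

theorem tent_nonneg (r t : ℝ) : 0 ≤ tent r t := le_max_left _ _

theorem tent_le_one (r t : ℝ) : tent r t ≤ 1 := max_le zero_le_one (min_le_left _ _)

theorem tent_eq_one {r t : ℝ} (hr : 0 < r) (ht : t ≤ r) : tent r t = 1 := by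
  have : 1 ≤ (2 * r - t) / r := by rw [le_div_iff₀ hr]; linarith
  rw [tent, min_eq_left this, max_eq_right zero_le_one]

theorem tent_eq_zero {r t : ℝ} (hr : 0 < r) (ht : 2 * r ≤ t) : tent r t = 0 := by
  have : (2 * r - t) / r ≤ 0 := div_nonpos_of_nonpos_of_nonneg (by linarith) hr.le
  rw [tent, max_eq_left]
  exact (min_le_right _ _).trans this

theorem tent_anti {r s t : ℝ} (hr : 0 < r) (hst : s ≤ t) : tent r t ≤ tent r s := by
  rw [tent, tent]
  apply max_le_max le_rfl
  apply min_le_min le_rfl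
  apply div_le_div_of_nonneg_right _ hr.le
  linarith

theorem tent_lip {r : ℝ} (hr : 0 < r) (s t : ℝ) : |tent r s - tent r t| ≤ |s - t| / r := by
  rw [tent, tent]
  refine (abs_max_sub_max_le_max _ _ _ _).trans ?_
  rw [sub_self, abs_zero]
  apply max_le (by positivity)
  refine (abs_min_sub_min_le_max _ _ _ _).trans ?_
  rw [sub_self, abs_zero]
  apply max_le (by positivity)
  rw [← sub_div, abs_div, abs_of_pos hr, show 2 * r - s - (2 * r - t) = -(s - t) by ring, abs_neg]

/-- the kernel -/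
noncomputable def ker {X : Type*} (d : ℕ → X → X → ℝ) (r : ℝ) {N : ℕ} (p : Fin N → X) (n : ℕ)
    (i j : Fin N) : ℝ := tent r (d n (p i) (p j))

/-- the square sum of the kernel -/
noncomputable def ksum {X : Type*} (d : ℕ → X → X → ℝ) (r : ℝ) {N : ℕ} (p : Fin N → X) (n : ℕ) : ℝ :=
  ∑ i, ∑ j, ker d r p n i j ^ 2

section

variable {G X : Type*} [Group G] [MulAction G X] {F : Set G} {d : ℕ → X → X → ℝ} {N : ℕ}
  {p : Fin N → X} {r : ℝ}

theorem ker_nonneg (n : ℕ) (i j : Fin N) : 0 ≤ ker d r p n i j := tent_nonneg _ _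

theorem ker_le_one (n : ℕ) (i j : Fin N) : ker d r p n i j ≤ 1 := tent_le_one _ _

theorem ker_anti (h : Gauge (G := G) F d) (hr : 0 < r) (n : ℕ) (i j : Fin N) :
    ker d r p (n + 1) i j ≤ ker d r p n i j := tent_anti hr (h.mono _ _ _)

theorem ksum_anti (h : Gauge (G := G) F d) (hr : 0 < r) (n : ℕ) :
    ksum d r p (n + 1) ≤ ksum d r p n :=
  sum_le_sum fun i _ => sum_le_sum fun j _ =>
    pow_le_pow_left₀ (ker_nonneg _ _ _) (ker_anti h hr n i j) 2

theorem ksum_le (n : ℕ) : ksum d r p n ≤ (N : ℝ) ^ 2 := by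
  calc ksum d r p n ≤ ∑ _i : Fin N, ∑ _j : Fin N, (1 : ℝ) :=
        sum_le_sum fun i _ => sum_le_sum fun j _ => pow_le_one₀ (ker_nonneg _ _ _) (ker_le_one _ _ _)
    _ = (N : ℝ) ^ 2 := by simp [sq]

theorem ksum_lower (h : Gauge (G := G) F d) (hr : 0 < r) (n : ℕ) {K : ℝ}
    (hK : ∀ E : Finset X, Sep d n (r / 2) E → (E.card : ℝ) ≤ K) :
    (N : ℝ) ^ 2 ≤ K * ksum d r p n := by
  classical
  -- a maximal separated subset of the image
  let 𝒮 : Finset (Finset X) := (univ.image p).powerset.filter fun S => Sep d n (r / 2) S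
  have h𝒮 : 𝒮.Nonempty := ⟨∅, mem_filter.2 ⟨mem_powerset.2 (empty_subset _), fun x hx => by simp at hx⟩⟩
  obtain ⟨S, hS, hmax⟩ := exists_max_image 𝒮 Finset.card h𝒮
  have hS1 : S ⊆ univ.image p := mem_powerset.1 (mem_filter.1 hS).1
  have hS2 : Sep d n (r / 2) S := (mem_filter.1 hS).2
  have hcov : ∀ i, ∃ s ∈ S, d n (p i) s ≤ r / 2 := by
    intro i
    by_contra hcon
    push Not at hcon
    have hi : p i ∉ S := fun hi => by
      have := hcon _ hi
      rw [h.self] at this
      linarith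
    have h1 : insert (p i) S ∈ 𝒮 := by
      refine mem_filter.2 ⟨mem_powerset.2 (insert_subset (mem_image_of_mem _ (mem_univ _)) hS1), ?_⟩
      intro x hx y hy hxy
      rw [mem_insert] at hx hy
      rcases hx with rfl | hx <;> rcases hy with rfl | hy
      · exact absurd rfl hxy
      · exact hcon y hy
      · rw [h.symm]; exact hcon x hx
      · exact hS2 x hx y hy hxy
    have h2 := hmax _ h1
    rw [card_insert_of_notMem hi] at h2
    omega
  choose σ hσS hσ using hcov
  have hcard : (N : ℝ) = ∑ s ∈ S, ((univ.filter fun i => σ i = s).card : ℝ) := by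
    have := card_eq_sum_card_fiberwise (f := σ) (s := (univ : Finset (Fin N))) (t := S)
      (fun i _ => hσS i)
    rw [card_univ, Fintype.card_fin] at this
    exact_mod_cast this
  have hsq : (∑ s ∈ S, ((univ.filter fun i => σ i = s).card : ℝ)) ^ 2 ≤
      S.card * ∑ s ∈ S, ((univ.filter fun i => σ i = s).card : ℝ) ^ 2 :=
    sq_sum_le_card_mul_sum_sq
  have hpair : ∑ s ∈ S, ((univ.filter fun i => σ i = s).card : ℝ) ^ 2 ≤ ksum d r p n := by
    have e1 : ∀ s, ((univ.filter fun i => σ i = s).card : ℝ) ^ 2 =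
        ∑ i, ∑ j, if (σ i = s ∧ σ j = s) then (1 : ℝ) else 0 := by
      intro s
      rw [sq, card_filter]
      push_cast
      rw [sum_mul_sum]
      refine sum_congr rfl fun i _ => sum_congr rfl fun j _ => ?_
      by_cases h1 : σ i = s <;> by_cases h2 : σ j = s <;> simp [h1, h2]
    rw [sum_congr rfl fun s _ => e1 s, sum_comm]
    refine sum_le_sum fun i _ => ?_
    rw [sum_comm]
    refine sum_le_sum fun j _ => ?_
    by_cases hij : σ i = σ j
    · have h1 : ∑ s ∈ S, (if (σ i = s ∧ σ j = s) then (1 : ℝ) else 0) ≤ 1 := by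
        rw [← hij]
        simp only [and_self]
        rw [sum_ite_eq, if_pos (hσS i)]
      have h2 : ker d r p n i j = 1 := by
        apply tent_eq_one hr
        have h3 := h.tri n (p i) (σ i) (p j)
        have h4 := hσ i
        have h5 := hσ j
        rw [h.symm n (σ i), hij] at h3
        rw [hij] at h4
        linarith
      rw [h2]
      linarith
    · have h1 : ∑ s ∈ S, (if (σ i = s ∧ σ j = s) then (1 : ℝ) else 0) = 0 := by
        apply sum_eq_zero
        intro s _
        rw [if_neg]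
        rintro ⟨h1, h2⟩
        exact hij (h1.trans h2.symm)
      rw [h1]
      positivity
  have hk0 : 0 ≤ ksum d r p n := sum_nonneg fun _ _ => sum_nonneg fun _ _ => sq_nonneg _
  calc (N : ℝ) ^ 2 ≤ S.card * ∑ s ∈ S, ((univ.filter fun i => σ i = s).card : ℝ) ^ 2 := by
        rw [hcard]; exact hsq
    _ ≤ S.card * ksum d r p n := mul_le_mul_of_nonneg_left hpair (Nat.cast_nonneg _)
    _ ≤ K * ksum d r p n := mul_le_mul_of_nonneg_right (hK S hS2) hk0

/-- a flat place of a slowly decreasing sequence -/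
theorem exists_flat (c : ℕ → ℝ) (hc : ∀ n, c (n + 1) ≤ c n) {B η : ℝ}
    (hB : 0 < B) (h0 : c 0 ≤ B) (hη : 0 < η) (hη1 : η < 1) {n₁ : ℕ} (hn : 4 ≤ n₁)
    (h1 : B * Real.exp (-(η / 4 * n₁)) ≤ c n₁) :
    ∃ m, m + 2 ≤ n₁ ∧ (1 - η) * c m ≤ c (m + 2) := by
  by_contra hcon
  push Not at hcon
  have hstep : ∀ j : ℕ, 2 * j ≤ n₁ → c (2 * j) ≤ (1 - η) ^ j * B := by
    intro j
    induction j with
    | zero => intro _; simpa using h0
    | succ j ih =>
      intro hj
      have h2 := ih (by omega)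
      have h3 := hcon (2 * j) (by omega)
      rw [show 2 * (j + 1) = 2 * j + 2 by ring, pow_succ]
      have : 0 < 1 - η := by linarith
      nlinarith
  have hanti : ∀ a b : ℕ, a ≤ b → c b ≤ c a := by
    intro a b hab
    induction hab with
    | refl => exact le_rfl
    | step _ ih => exact (hc _).trans ih
  obtain ⟨j, hj⟩ : ∃ j, j = n₁ / 2 := ⟨_, rfl⟩
  have h2 := hstep j (by omega)
  have h3 := hanti (2 * j) n₁ (by omega)
  have h4 : (1 - η) ^ j ≤ Real.exp (-(η * j)) := by
    have : 1 - η ≤ Real.exp (-η) := by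
      have := Real.add_one_le_exp (-η)
      linarith
    calc (1 - η) ^ j ≤ Real.exp (-η) ^ j := pow_le_pow_left₀ (by linarith) this j
      _ = Real.exp (-(η * j)) := by rw [← Real.exp_nat_mul]; congr 1; ring
  have h5 : (3 : ℝ) / 8 * n₁ ≤ j := by
    have : 3 * n₁ ≤ 8 * j := by omega
    have h : (3 : ℝ) * n₁ ≤ 8 * j := by exact_mod_cast this
    linarith
  have h6 : Real.exp (-(η * j)) < Real.exp (-(η / 4 * n₁)) := by
    rw [Real.exp_lt_exp]
    have : (0 : ℝ) < n₁ := by
      have : 0 < n₁ := by omega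
      exact_mod_cast this
    nlinarith
  have h7 : B * Real.exp (-(η / 4 * n₁)) ≤ Real.exp (-(η * j)) * B :=
    h1.trans (h3.trans (h2.trans (mul_le_mul_of_nonneg_right h4 hB.le)))
  nlinarith

end

end Pool.Agent.E8helper56.ZE
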