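import Pool.Agent.E8helper56.ZE.Coro

/-!
Zero entropy from Lipschitz constants and box dimension.
-/

namespace Pool.Agent.E8helper56.ZE

open scoped Pointwise
open Pool.Agent.H21R2 (IsSofic IsHyperlinear)

/-- the Lipschitz constants of the products of `n` elements grow subexponentially
(along a subsequence) -/
def SlowLip (G X : Type*) [Group G] [MulAction G X] [PseudoMetricSpace X] : Prop :=
  ∀ F : Finset G, ∀ c : ℝ, 0 < c → ∀ n₀ : ℕ, ∃ n, n₀ ≤ n ∧
    ∀ γ ∈ (F : Set G) ^ n, ∀ x y : X, dist (γ • x) (γ • y) ≤ Real.exp (c * n) * dist x y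

/-- every element acts by a Lipschitz map -/
def AllLip (G X : Type*) [Group G] [MulAction G X] [PseudoMetricSpace X] : Prop :=
  ∀ g : G, ∃ L : ℝ, ∀ x y : X, dist (g • x) (g • y) ≤ L * dist x y

variable {G X : Type*} [Group G] [MulAction G X] [MetricSpace X]

theorem count_bound {C D : ℝ} (hP : PackBound X C D) {ε : ℝ} (hε : 0 < ε) {F : Finset G} {n : ℕ}
    {L : ℝ} (hL : 1 ≤ L) (hlip : ∀ γ ∈ (F : Set G) ^ n, ∀ x y : X,
      dist (γ • x) (γ • y) ≤ L * dist x y) {D' : ℝ} (hD : D ≤ D') {E : Finset X}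
    (hE : BallSep F n ε E) :
    (E.card : ℝ) ≤ (|C| + 1) * (min ε 1) ^ (-D') * L ^ D' := by
  have hε1 : 0 < min ε 1 := lt_min hε one_pos
  have hL0 : 0 < L := by linarith
  set r : ℝ := min ε 1 / L with hr
  have hr0 : 0 < r := by positivity
  have hr1 : r ≤ 1 := by
    rw [hr, div_le_one hL0]
    exact (min_le_right _ _).trans hL
  have hsep : ∀ x ∈ E, ∀ y ∈ E, x ≠ y → r ≤ dist x y := by
    intro x hx y hy hxy
    obtain ⟨γ, hγ, hd⟩ := hE x hx y hy hxy
    rw [hr, div_le_iff₀ hL0, mul_comm]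
    exact (min_le_left _ _).trans (hd.trans (hlip γ hγ x y))
  have h1 := hP r hr0 hr1 E hsep
  have h2 : r ^ (-D) ≤ r ^ (-D') := Real.rpow_le_rpow_of_exponent_ge hr0 hr1 (by linarith)
  have h3 : 0 < r ^ (-D) := Real.rpow_pos_of_pos hr0 _
  have h4 : C ≤ |C| + 1 := by linarith [le_abs_self C]
  have h5 : 0 < |C| + 1 := by positivity
  calc (E.card : ℝ) ≤ C * r ^ (-D) := h1
    _ ≤ (|C| + 1) * r ^ (-D) := mul_le_mul_of_nonneg_right h4 h3.le
    _ ≤ (|C| + 1) * r ^ (-D') := mul_le_mul_of_nonneg_left h2 h5.le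
    _ = (|C| + 1) * (min ε 1) ^ (-D') * L ^ D' := by
        rw [hr, Real.div_rpow hε1.le hL0.le, Real.rpow_neg hL0.le D', div_inv_eq_mul, mul_assoc]

theorem exists_exp_ge (K : ℝ) {c : ℝ} (hc : 0 < c) : ∃ n₁ : ℕ, ∀ n : ℕ, n₁ ≤ n →
    K ≤ Real.exp (c * n) := by
  obtain ⟨n₁, hn₁⟩ := exists_nat_gt (K / c)
  refine ⟨n₁, fun n hn => ?_⟩
  rw [div_lt_iff₀ hc] at hn₁
  have h1 : (n₁ : ℝ) ≤ n := by exact_mod_cast hn
  have h2 : (n₁ : ℝ) * c ≤ n * c := mul_le_mul_of_nonneg_right h1 hc.le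
  have h3 := Real.add_one_le_exp (c * n)
  linarith [mul_comm c (n : ℝ)]

theorem zero_of_slowLip {C D : ℝ} (hP : PackBound X C D) (hL : SlowLip G X) :
    ZeroEntropy G X := by
  intro F ε hε c hc n₀
  set D' : ℝ := |D| + 1 with hD'
  have hD'0 : 0 < D' := by positivity
  have hDD : D ≤ D' := by rw [hD']; linarith [le_abs_self D]
  obtain ⟨n₁, hn₁⟩ := exists_exp_ge ((|C| + 1) * (min ε 1) ^ (-D')) (c := c / 2) (by positivity)
  obtain ⟨n, hn, hlip⟩ := hL F (c / (2 * D')) (by positivity) (max n₀ n₁)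
  refine ⟨n, (le_max_left _ _).trans hn, fun E hE => ?_⟩
  have h1 := count_bound hP hε (Real.one_le_exp (by positivity)) hlip hDD hE
  have h2 := hn₁ n ((le_max_right _ _).trans hn)
  have h3 : Real.exp (c / (2 * D') * n) ^ D' = Real.exp (c / 2 * n) := by
    rw [← Real.exp_mul]
    congr 1
    field_simp
  rw [h3] at h1
  calc (E.card : ℝ) ≤ _ := h1
    _ ≤ Real.exp (c / 2 * n) * Real.exp (c / 2 * n) :=
        mul_le_mul_of_nonneg_right h2 (Real.exp_pos _).le
    _ = Real.exp (c * n) := by rw [← Real.exp_add]; congr 1; ring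

theorem lip_pow (F : Finset G) {L : ℝ} (hL : 0 ≤ L)
    (h : ∀ g ∈ F, ∀ x y : X, dist (g • x) (g • y) ≤ L * dist x y) (n : ℕ) :
    ∀ γ ∈ (F : Set G) ^ n, ∀ x y : X, dist (γ • x) (γ • y) ≤ L ^ n * dist x y := by
  induction n with
  | zero =>
    intro γ hγ x y
    rw [pow_zero, Set.mem_one] at hγ
    rw [hγ, one_smul, one_smul, pow_zero, one_mul]
  | succ n ih =>
    intro γ hγ x y
    rw [pow_succ] at hγ
    obtain ⟨a, ha, b, hb, rfl⟩ := hγ
    change dist ((a * b) • x) ((a * b) • y) ≤ _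
    rw [mul_smul, mul_smul]
    refine (ih a ha _ _).trans ?_
    calc L ^ n * dist (b • x) (b • y) ≤ L ^ n * (L * dist x y) :=
          mul_le_mul_of_nonneg_left (h b hb x y) (by positivity)
      _ = L ^ (n + 1) * dist x y := by ring

theorem zero_of_dim_zero (hP : ∀ τ : ℝ, 0 < τ → ∃ C : ℝ, PackBound X C τ) (hL : AllLip G X) :
    ZeroEntropy G X := by
  classical
  intro F ε hε c hc n₀
  choose l hl using hL
  set L : ℝ := 1 + ∑ g ∈ F, |l g| with hLdef
  have hsum : 0 ≤ ∑ g ∈ F, |l g| := Finset.sum_nonneg fun _ _ => abs_nonneg _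
  have hL1 : 1 ≤ L := by rw [hLdef]; linarith
  have hLF : ∀ g ∈ F, ∀ x y : X, dist (g • x) (g • y) ≤ L * dist x y := by
    intro g hg x y
    refine (hl g x y).trans (mul_le_mul_of_nonneg_right ?_ dist_nonneg)
    have h1 := Finset.single_le_sum (f := fun g => |l g|) (fun _ _ => abs_nonneg _) hg
    have h2 := le_abs_self (l g)
    rw [hLdef]
    linarith
  have hlog : 0 ≤ Real.log L := Real.log_nonneg hL1
  set τ : ℝ := c / (2 * (Real.log L + 1)) with hτ
  have hτ0 : 0 < τ := by positivity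
  obtain ⟨C, hC⟩ := hP τ hτ0
  obtain ⟨n₁, hn₁⟩ := exists_exp_ge ((|C| + 1) * (min ε 1) ^ (-τ)) (c := c / 2) (by positivity)
  refine ⟨max n₀ n₁, le_max_left _ _, fun E hE => ?_⟩
  set n := max n₀ n₁ with hn
  have h1 := count_bound hC hε (one_le_pow₀ hL1) (lip_pow F (by linarith) hLF n) le_rfl hE
  have h2 := hn₁ n (le_max_right _ _)
  have h3 : (L ^ n) ^ τ ≤ Real.exp (c / 2 * n) := by
    rw [← Real.exp_log (show 0 < (L ^ n) ^ τ by positivity), Real.exp_le_exp,
      Real.log_rpow (by positivity), Real.log_pow]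
    have h4 : τ * (Real.log L + 1) = c / 2 := by
      rw [hτ]; field_simp
    have h5 : τ * Real.log L ≤ c / 2 := by rw [← h4]; nlinarith
    calc τ * (n * Real.log L) = (τ * Real.log L) * n := by ring
      _ ≤ c / 2 * n := mul_le_mul_of_nonneg_right h5 (by positivity)
  have h6 : 0 ≤ (|C| + 1) * (min ε 1) ^ (-τ) := by
    have : 0 < min ε 1 := lt_min hε one_pos
    positivity
  calc (E.card : ℝ) ≤ _ := h1
    _ ≤ Real.exp (c / 2 * n) * Real.exp (c / 2 * n) := mul_le_mul h2 h3 (by positivity)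
        (Real.exp_pos _).le
    _ = Real.exp (c * n) := by rw [← Real.exp_add]; congr 1; ring

end Pool.Agent.E8helper56.ZE
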