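import Pool.Agent.E8helper56.ZE.Perm
import Pool.Agent.H21R2.Criterion

/-!
Soficity from `{0,1}`-valued gauges with slowly growing separated sets.
-/

namespace Pool.Agent.E8helper56.ZE

open Finset
open Pool.Agent.H21R2 (WeightedCriterion mass energy IsSofic)

/-- the hypothesis: `{0,1}`-valued gauges with slowly growing separated sets in which `g` moves
points -/
def LocalZ (G X : Type*) [Group G] [MulAction G X] (g : G) : Prop :=
  ∃ H : Finset G, ∀ A : Finset G, ∃ (F : Set G) (d : ℕ → X → X → ℝ),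
    (∀ a ∈ A, a ∈ F ∧ a⁻¹ ∈ F) ∧ Gauge (G := G) F d ∧ Slow d ∧
    (∀ n x y, d n x y = 0 ∨ d n x y = 1) ∧
    ∀ x : X, ∃ h ∈ H, d 0 (g⁻¹ • h⁻¹ • x) (h⁻¹ • x) = 1

theorem mass_one {N : ℕ} (P : Fin N → Prop) [DecidablePred P] (f : Fin N →₀ ℝ)
    (hf : ∀ i, f i = 1) : mass f P = ((univ.filter P).card : ℝ) := by
  classical
  rw [mass]
  have h1 : f.support = univ := by
    ext i; simp [hf i]
  rw [h1, sum_congr rfl (fun i _ => by rw [hf i, one_pow]), sum_const, nsmul_eq_mul, mul_one]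
  congr 2
  ext i
  simp

section

variable {G X : Type*} [Group G] [MulAction G X] [Nonempty X]

theorem weighted_step (g : G) (hyp : LocalZ G X g⁻¹) (A0 : Finset G) (hgA : g ∈ A0) (ε : ℝ)
    (hε : 0 < ε) :
    ∃ (N : ℕ) (φ : G → Equiv.Perm (Fin N)) (f : Fin N →₀ ℝ),
      φ 1 = 1 ∧
      0 < mass f (fun y => φ g y ≠ y) ∧
      (∀ a ∈ A0, energy f (φ a) ≤ ε * mass f (fun y => φ g y ≠ y)) ∧
      (∀ a ∈ A0, ∀ b ∈ A0, a * b ∈ A0 →
        mass f (fun y => φ (a * b) y ≠ φ a (φ b y)) ≤ ε * mass f (fun y => φ g y ≠ y)) := by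
  classical
  obtain ⟨H, hloc⟩ := hyp
  obtain ⟨F, d, hF, h, hslow, h01, hcov⟩ := hloc (A0 ∪ H)
  have hFA : ∀ a ∈ A0, a ∈ F ∧ a⁻¹ ∈ F := fun a ha => hF a (mem_union_left _ ha)
  have hFH : ∀ a ∈ H, a ∈ F ∧ a⁻¹ ∈ F := fun a ha => hF a (mem_union_right _ ha)
  have hk : (1 : ℝ) ≤ H.card := by
    obtain ⟨x⟩ := ‹Nonempty X›
    obtain ⟨a, ha, _⟩ := hcov x
    have : 0 < H.card := card_pos.2 ⟨a, ha⟩
    exact_mod_cast this
  obtain ⟨k, hkdef⟩ : ∃ k : ℝ, (H.card : ℝ) = k := ⟨_, rfl⟩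
  rw [hkdef] at hk
  set ε' : ℝ := min (1 / (4 * k)) (ε / (6 * k)) with hε'
  have hε'0 : 0 < ε' := lt_min (by positivity) (by positivity)
  have hε'1 : ε' ≤ 1 / (4 * k) := min_le_left _ _
  have hε'2 : ε' ≤ ε / (6 * k) := min_le_right _ _
  obtain ⟨M, -, N, hN, p, hp, ρ, hρ1, hρ⟩ :=
    exists_perms' h hslow (show (0 : ℝ) < 1 / 4 by norm_num) hε'0 0
  have hN0 : (0 : ℝ) < N := by exact_mod_cast hN
  have hsmall : ∀ n x y, d n x y ≤ 2 * (1 / 4) → d n x y = 0 := by
    intro n x y hxy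
    rcases h01 n x y with h0 | h0
    · exact h0
    · rw [h0] at hxy; norm_num at hxy
  have hzero : ∀ {n m : ℕ}, n ≤ m → ∀ x y, d m x y = 0 → d n x y = 0 := by
    intro n m hnm x y hxy
    have h1 := h.mono_le hnm x y
    have h2 := h.nonneg n x y
    linarith
  have hztri : ∀ n x y z, d n x y = 0 → d n y z = 0 → d n x z = 0 := by
    intro n x y z h1 h2
    have h3 := h.tri n x y z
    have h4 := h.nonneg n x z
    linarith
  have hzsh : ∀ a ∈ F, ∀ n x y, d (n + 1) x y = 0 → d n (a • x) (a • y) = 0 := by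
    intro a ha n x y hxy
    have h1 := h.shift a ha n x y
    have h2 := h.nonneg n (a • x) (a • y)
    linarith
  set bad : G → Finset (Fin N) := fun a =>
    univ.filter fun i => ¬ d (M + 1) (p (ρ a i)) (a⁻¹ • p i) ≤ 2 * (1 / 4) with hbad
  have hgood : ∀ a i, i ∉ bad a → d (M + 1) (p (ρ a i)) (a⁻¹ • p i) = 0 := by
    intro a i hi
    apply hsmall
    by_contra hcon
    exact hi (mem_filter.2 ⟨mem_univ _, hcon⟩)
  have hinj : ∀ i j, d M (p i) (p j) = 0 → i = j := by
    intro i j hij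
    by_contra hne
    have := hp i j hne
    rw [hij] at this
    norm_num at this
  -- multiplicativity
  have hmult : ∀ a b : G, a ∈ F → b ∈ F → b⁻¹ ∈ F → a * b ∈ F →
      ((univ.filter fun i => ρ (a * b) i ≠ ρ b (ρ a i)).card : ℝ) ≤ 3 * (ε' * N) := by
    intro a b ha hb hb' hab
    have hsub : (univ.filter fun i => ρ (a * b) i ≠ ρ b (ρ a i)) ⊆
        (bad a ∪ (bad b).map (ρ a).symm.toEmbedding) ∪ bad (a * b) := by
      intro i hi
      by_contra hcon
      rw [mem_union, mem_union, not_or, not_or] at hcon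
      obtain ⟨⟨c1, c2⟩, c3⟩ := hcon
      have g1 := hgood a i c1
      have g2 : d (M + 1) (p (ρ b (ρ a i))) (b⁻¹ • p (ρ a i)) = 0 := by
        apply hgood
        intro hh
        apply c2
        rw [mem_map]
        exact ⟨ρ a i, hh, by simp⟩
      have g3 := hgood (a * b) i c3
      have g4 := hzsh b⁻¹ hb' M _ _ g1
      rw [smul_smul, ← mul_inv_rev] at g4
      rw [h.symm] at g4
      have g5 := hztri M _ _ _ (hzero (Nat.le_succ M) _ _ g3) g4
      rw [h.symm] at g2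
      have g6 := hztri M _ _ _ g5 (hzero (Nat.le_succ M) _ _ g2)
      exact (mem_filter.1 hi).2 (hinj _ _ g6)
    have h1 := card_le_card hsub
    have h2 := card_union_le (bad a ∪ (bad b).map (ρ a).symm.toEmbedding) (bad (a * b))
    have h3 := card_union_le (bad a) ((bad b).map (ρ a).symm.toEmbedding)
    rw [card_map] at h3
    have h4 : (univ.filter fun i => ρ (a * b) i ≠ ρ b (ρ a i)).card ≤
      (bad a).card + (bad b).card + (bad (a * b)).card := by omega
    have h5 : ((univ.filter fun i => ρ (a * b) i ≠ ρ b (ρ a i)).card : ℝ) ≤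
      (bad a).card + (bad b).card + (bad (a * b)).card := by exact_mod_cast h4
    have h6 : ((bad a).card : ℝ) ≤ ε' * N := hρ a ha
    have h7 : ((bad b).card : ℝ) ≤ ε' * N := hρ b hb
    have h8 : ((bad (a * b)).card : ℝ) ≤ ε' * N := hρ _ hab
    linarith
  -- displacement
  set J : Finset (Fin N) := univ.filter fun j => ρ g⁻¹ j ≠ j with hJ
  have hgF := hFA g hgA
  have hdisp : (N : ℝ) ≤ 2 * k * J.card := by
    have hsub : (univ : Finset (Fin N)) ⊆ H.biUnion fun a =>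
        (bad a ∪ (bad g⁻¹).map (ρ a).symm.toEmbedding) ∪ J.map (ρ a).symm.toEmbedding := by
      intro i _
      obtain ⟨a, ha, hsa⟩ := hcov (p i)
      rw [mem_biUnion]
      refine ⟨a, ha, ?_⟩
      by_contra hcon
      rw [mem_union, mem_union, not_or, not_or] at hcon
      obtain ⟨⟨c1, c2⟩, c3⟩ := hcon
      have g1 := hgood a i c1
      have g2 : d (M + 1) (p (ρ g⁻¹ (ρ a i))) (g⁻¹⁻¹ • p (ρ a i)) = 0 := by
        apply hgood
        intro hh
        apply c2
        rw [mem_map]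
        exact ⟨ρ a i, hh, by simp⟩
      have g3 : ρ g⁻¹ (ρ a i) = ρ a i := by
        by_contra hne
        apply c3
        rw [mem_map]
        exact ⟨ρ a i, mem_filter.2 ⟨mem_univ _, hne⟩, by simp⟩
      rw [g3] at g2
      have g4 := hzero (Nat.zero_le (M + 1)) _ _ g2
      have g5 := hzsh g⁻¹⁻¹ (by rw [inv_inv]; exact hgF.1) 0 _ _ (hzero (by omega) _ _ g1)
      have g6 := hzero (Nat.zero_le (M + 1)) _ _ g1
      have g7 : d 0 (g⁻¹⁻¹ • a⁻¹ • p i) (a⁻¹ • p i) = 0 := by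
        rw [h.symm] at g5
        rw [h.symm] at g4
        exact hztri 0 _ _ _ (hztri 0 _ _ _ g5 g4) g6
      rw [g7] at hsa
      norm_num at hsa
    have h1 := (card_le_card hsub).trans card_biUnion_le
    rw [card_univ, Fintype.card_fin] at h1
    have h2 : ∀ a ∈ H, (((bad a ∪ (bad g⁻¹).map (ρ a).symm.toEmbedding) ∪
        J.map (ρ a).symm.toEmbedding).card : ℝ) ≤ 2 * (ε' * N) + J.card := by
      intro a ha
      have h3 := card_union_le (bad a ∪ (bad g⁻¹).map (ρ a).symm.toEmbedding)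
        (J.map (ρ a).symm.toEmbedding)
      have h4 := card_union_le (bad a) ((bad g⁻¹).map (ρ a).symm.toEmbedding)
      rw [card_map] at h3 h4
      have h5 : (((bad a ∪ (bad g⁻¹).map (ρ a).symm.toEmbedding) ∪
        J.map (ρ a).symm.toEmbedding).card : ℝ) ≤ (bad a).card + (bad g⁻¹).card + J.card := by
        exact_mod_cast (by omega : ((bad a ∪ (bad g⁻¹).map (ρ a).symm.toEmbedding) ∪
          J.map (ρ a).symm.toEmbedding).card ≤ (bad a).card + (bad g⁻¹).card + J.card)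
      have h6 : ((bad a).card : ℝ) ≤ ε' * N := hρ a (hFH a ha).1
      have h7 : ((bad g⁻¹).card : ℝ) ≤ ε' * N := hρ _ hgF.2
      linarith
    have h3 : (N : ℝ) ≤ k * (2 * (ε' * N) + J.card) := by
      calc (N : ℝ) ≤ ∑ a ∈ H, (((bad a ∪ (bad g⁻¹).map (ρ a).symm.toEmbedding) ∪
          J.map (ρ a).symm.toEmbedding).card : ℝ) := by exact_mod_cast h1
        _ ≤ ∑ _a ∈ H, (2 * (ε' * N) + J.card) := sum_le_sum h2
        _ = k * (2 * (ε' * N) + J.card) := by rw [sum_const, nsmul_eq_mul, hkdef]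
    have h4 : k * (2 * (ε' * N)) ≤ N / 2 := by
      calc k * (2 * (ε' * N)) = (2 * k * N) * ε' := by ring
        _ ≤ (2 * k * N) * (1 / (4 * k)) := mul_le_mul_of_nonneg_left hε'1 (by positivity)
        _ = N / 2 := by field_simp; ring
    linarith
  have hJ0 : (0 : ℝ) < J.card := by
    by_contra hcon
    push Not at hcon
    nlinarith
  have herr : 3 * (ε' * N) ≤ ε * J.card := by
    calc 3 * (ε' * N) ≤ 3 * ((ε / (6 * k)) * (2 * k * J.card)) := by
          have := mul_le_mul hε'2 hdisp hN0.le (by positivity)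
          linarith
      _ = ε * J.card := by field_simp; ring
  let f : Fin N →₀ ℝ := Finsupp.equivFunOnFinite.symm fun _ => 1
  have hf : ∀ i, f i = 1 := fun i => by simp [f]
  refine ⟨N, fun a => ρ a⁻¹, f, by change ρ 1⁻¹ = 1; rw [inv_one, hρ1], ?_, ?_, ?_⟩
  · rw [mass_one _ f hf]
    exact hJ0
  · intro a _
    have h0 : energy f (ρ a⁻¹) = 0 := by
      rw [energy]
      simp [hf]
    rw [h0, mass_one _ f hf]
    positivity
  · intro a ha b hb hab
    rw [mass_one _ f hf, mass_one _ f hf]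
    have h1 := hmult b⁻¹ a⁻¹ (hFA b hb).2 (hFA a ha).2 (by rw [inv_inv]; exact (hFA a ha).1)
      (by rw [← mul_inv_rev]; exact (hFA _ hab).2)
    rw [← mul_inv_rev] at h1
    exact h1.trans herr

end

theorem sofic_of_local.{u, v} {G : Type u} [Group G]
    (hyp : ∀ g : G, g ≠ 1 → ∃ (X : Type v) (_ : MulAction G X) (_ : Nonempty X), LocalZ G X g) :
    IsSofic G := by
  refine Pool.Agent.H21R2.isSofic_of_weighted.{0, u} G ?_
  intro A h1 g hgA hg ε hε
  obtain ⟨X, _, _, hX⟩ := hyp g⁻¹ (inv_ne_one.2 hg)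
  obtain ⟨N, φ, f, h⟩ := weighted_step g hX A hgA ε hε
  exact ⟨Fin N, φ, f, h⟩

end Pool.Agent.E8helper56.ZE
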