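import Pool.Agent.E8helper56.ZE.Hyper
import Pool.Agent.E8helper56.ZE.Sofic

/-!
Zero topological entropy (in the sense of Ghys, Langevin and Walczak) and the gauges given by the
metric and by finite clopen partitions.
-/

namespace Pool.Agent.E8helper56.ZE

open scoped Pointwise
open Pool.Agent.H21R2 (IsSofic IsHyperlinear)

/-- `E` is separated at scale `ε` by the products of `n` elements of `F`. -/
def BallSep {G X : Type*} [Group G] [MulAction G X] [PseudoMetricSpace X] (F : Finset G) (n : ℕ)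
    (ε : ℝ) (E : Finset X) : Prop :=
  ∀ x ∈ E, ∀ y ∈ E, x ≠ y → ∃ γ ∈ (F : Set G) ^ n, ε ≤ dist (γ • x) (γ • y)

/-- **Zero entropy** in the sense of Ghys, Langevin and Walczak (lower growth rate). -/
def ZeroEntropy (G X : Type*) [Group G] [MulAction G X] [PseudoMetricSpace X] : Prop :=
  ∀ F : Finset G, ∀ ε : ℝ, 0 < ε → ∀ c : ℝ, 0 < c → ∀ n₀ : ℕ, ∃ n, n₀ ≤ n ∧
    ∀ E : Finset X, BallSep F n ε E → (E.card : ℝ) ≤ Real.exp (c * n)

section gauge

variable {G X : Type*} [Group G] [MulAction G X]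

/-- supremum of the pseudodistance `m` over the products of `n` elements of `F` -/
noncomputable def bd (m : X → X → ℝ) (F : Set G) (n : ℕ) (x y : X) : ℝ :=
  ⨆ γ : {γ : G // γ ∈ F ^ n}, m (γ.1 • x) (γ.1 • y)

variable {m : X → X → ℝ} {F : Set G} {B : ℝ}

theorem bd_le (hm0 : ∀ x y, 0 ≤ m x y) {n : ℕ} {x y : X} {b : ℝ} (hb : 0 ≤ b)
    (h : ∀ γ ∈ F ^ n, m (γ • x) (γ • y) ≤ b) : bd m F n x y ≤ b :=
  Real.iSup_le (fun γ => h γ.1 γ.2) hb

theorem le_bd (hmB : ∀ x y, m x y ≤ B) {n : ℕ} {x y : X} {γ : G} (hγ : γ ∈ F ^ n) :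
    m (γ • x) (γ • y) ≤ bd m F n x y :=
  le_ciSup (f := fun γ : {γ : G // γ ∈ F ^ n} => m (γ.1 • x) (γ.1 • y))
    ⟨B, by rintro _ ⟨γ, rfl⟩; exact hmB _ _⟩ ⟨γ, hγ⟩

theorem gauge_bd (hm0 : ∀ x y, 0 ≤ m x y) (hmB : ∀ x y, m x y ≤ B) (hms : ∀ x, m x x = 0)
    (hmc : ∀ x y, m x y = m y x) (hmt : ∀ x y z, m x z ≤ m x y + m y z) (h1 : (1 : G) ∈ F) :
    Gauge (G := G) F (bd m F) where
  nonneg n x y := Real.iSup_nonneg fun γ => hm0 _ _
  self n x := by
    apply le_antisymm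
    · exact bd_le hm0 le_rfl fun γ _ => by rw [hms]
    · exact Real.iSup_nonneg fun γ => hm0 _ _
  symm n x y := by
    rw [bd, bd]
    exact congrArg _ (funext fun γ => hmc _ _)
  tri n x y z := by
    refine bd_le hm0 (add_nonneg (Real.iSup_nonneg fun γ => hm0 _ _)
      (Real.iSup_nonneg fun γ => hm0 _ _)) fun γ hγ => (hmt _ (γ • y) _).trans ?_
    exact add_le_add (le_bd hmB hγ) (le_bd hmB hγ)
  mono n x y := by
    refine bd_le hm0 (Real.iSup_nonneg fun γ => hm0 _ _) fun γ hγ => ?_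
    exact le_bd hmB (by rw [pow_succ]; exact ⟨γ, hγ, 1, h1, mul_one γ⟩)
  shift a ha n x y := by
    refine bd_le hm0 (Real.iSup_nonneg fun γ => hm0 _ _) fun γ hγ => ?_
    rw [smul_smul, smul_smul]
    exact le_bd hmB (by rw [pow_succ]; exact ⟨γ, hγ, a, ha, rfl⟩)

theorem exists_of_lt_bd (hm0 : ∀ x y, 0 ≤ m x y) {n : ℕ} {x y : X} {δ : ℝ} (hδ : 0 ≤ δ)
    (h : δ < bd m F n x y) : ∃ γ ∈ F ^ n, δ < m (γ • x) (γ • y) := by
  by_contra hcon
  push Not at hcon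
  exact absurd (bd_le hm0 hδ hcon) (not_le.2 h)

theorem bd_zero (hm0 : ∀ x y, 0 ≤ m x y) (hmB : ∀ x y, m x y ≤ B) (x y : X) :
    bd m F 0 x y = m x y := by
  apply le_antisymm
  · refine bd_le hm0 (hm0 _ _) fun γ hγ => ?_
    rw [pow_zero, Set.mem_one] at hγ
    rw [hγ, one_smul, one_smul]
  · have := le_bd (F := F) (n := 0) (x := x) (y := y) hmB (show (1 : G) ∈ F ^ 0 by simp)
    rwa [one_smul, one_smul] at this

/-- slow growth for a gauge which is controlled by the metric -/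
theorem slow_bd [PseudoMetricSpace X] (hz : ZeroEntropy G X) (F : Finset G)
    (hm0 : ∀ x y, 0 ≤ m x y)
    (hc : ∀ δ : ℝ, 0 < δ → ∃ ε : ℝ, 0 < ε ∧ ∀ x y, δ < m x y → ε ≤ dist x y) :
    Slow (bd m (F : Set G)) := by
  intro δ hδ c hc0 n₀
  obtain ⟨ε, hε, hεm⟩ := hc δ hδ
  obtain ⟨n, hn, hE⟩ := hz F ε hε c hc0 n₀
  refine ⟨n, hn, fun E hsep => hE E fun x hx y hy hxy => ?_⟩
  obtain ⟨γ, hγ, hlt⟩ := exists_of_lt_bd hm0 hδ.le (hsep x hx y hy hxy)
  exact ⟨γ, hγ, hεm _ _ hlt⟩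

end gauge

section compact

variable {G X : Type*} [Group G] [MulAction G X] [MetricSpace X] [CompactSpace X]
  [ContinuousConstSMul G X]

/-- uniform displacement by compactness -/
theorem exists_uniform (g : G) (hg : ∀ x : X, ∃ h : G, g • h • x ≠ h • x) :
    ∃ (H : Finset G) (s : ℝ), 0 < s ∧ ∀ x : X, ∃ h ∈ H, s ≤ dist (g⁻¹ • h⁻¹ • x) (h⁻¹ • x) := by
  classical
  have hdisp : ∀ x : X, ∃ h : G, 0 < dist (g⁻¹ • h⁻¹ • x) (h⁻¹ • x) := by
    intro x
    obtain ⟨h, hh⟩ := hg x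
    refine ⟨h⁻¹, dist_pos.2 ?_⟩
    rw [inv_inv]
    intro heq
    apply hh
    rw [inv_smul_eq_iff] at heq
    exact heq.symm
  let U : G × ℕ → Set X := fun q => {x | 1 / ((q.2 : ℝ) + 1) < dist (g⁻¹ • q.1⁻¹ • x) (q.1⁻¹ • x)}
  have hUo : ∀ q, IsOpen (U q) := by
    intro q
    apply isOpen_lt continuous_const
    exact ((continuous_const_smul _).comp (continuous_const_smul _)).dist (continuous_const_smul _)
  have hUc : (Set.univ : Set X) ⊆ ⋃ q, U q := by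
    intro x _
    obtain ⟨h, hh⟩ := hdisp x
    obtain ⟨k, hk⟩ := exists_nat_one_div_lt hh
    exact Set.mem_iUnion.2 ⟨(h, k), hk⟩
  obtain ⟨t, ht⟩ := isCompact_univ.elim_finite_subcover U hUo hUc
  obtain ⟨K, hK⟩ : ∃ K : ℕ, ∀ q ∈ t, q.2 ≤ K := ⟨t.sup Prod.snd, fun q hq => Finset.le_sup hq⟩
  refine ⟨t.image Prod.fst, 1 / ((K : ℝ) + 1), by positivity, fun x => ?_⟩
  have hx := ht (Set.mem_univ x)
  rw [Set.mem_iUnion₂] at hx
  obtain ⟨q, hq, hxq⟩ := hx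
  refine ⟨q.1, Finset.mem_image_of_mem _ hq, ?_⟩
  have h1 : 1 / ((q.2 : ℝ) + 1) < dist (g⁻¹ • q.1⁻¹ • x) (q.1⁻¹ • x) := hxq
  have h2 : 1 / ((K : ℝ) + 1) ≤ 1 / ((q.2 : ℝ) + 1) := by
    have : (q.2 : ℝ) ≤ K := by exact_mod_cast hK q hq
    apply one_div_le_one_div_of_le (by positivity)
    linarith
  linarith

theorem local_of_zero (hz : ZeroEntropy G X) (g : G)
    (hg : ∀ x : X, ∃ h : G, g • h • x ≠ h • x) : Local G X g := by
  classical
  obtain ⟨H, s, hs, hH⟩ := exists_uniform g hg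
  refine ⟨H, s, hs, fun A => ?_⟩
  let F : Finset G := A ∪ A.image (fun a => a⁻¹) ∪ {1}
  obtain ⟨B, hB⟩ := Metric.isBounded_iff.1 (isCompact_univ (X := X)).isBounded
  have hB' : ∀ x y : X, dist x y ≤ B := fun x y => hB (Set.mem_univ x) (Set.mem_univ y)
  refine ⟨(F : Set G), bd (fun x y => dist x y) (F : Set G), ?_, ?_, ?_, ?_⟩
  · intro a ha
    constructor
    · rw [Finset.mem_coe, Finset.mem_union, Finset.mem_union]; exact Or.inl (Or.inl ha)
    · rw [Finset.mem_coe, Finset.mem_union, Finset.mem_union]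
      exact Or.inl (Or.inr (Finset.mem_image_of_mem _ ha))
  · exact gauge_bd (fun _ _ => dist_nonneg) hB' dist_self dist_comm dist_triangle
      (by rw [Finset.mem_coe, Finset.mem_union]; exact Or.inr (Finset.mem_singleton_self 1))
  · exact slow_bd hz F (fun _ _ => dist_nonneg) fun δ hδ => ⟨δ, hδ, fun x y h => h.le⟩
  · intro x
    obtain ⟨h, hh, hx⟩ := hH x
    refine ⟨h, hh, ?_⟩
    rw [bd_zero (fun _ _ => dist_nonneg) hB']
    exact hx

end compact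

end Pool.Agent.E8helper56.ZE
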