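import Pool.Agent.E8helper56.ZE.Gauge

/-!
Levels at which the maximal separated sets hardly grow, and the almost action of the group on the
maximal separated sets of these levels.
-/

namespace Pool.Agent.E8helper56.ZE

open Finset

section

variable {G X : Type*} [Group G] [MulAction G X] {F : Set G} {d : ℕ → X → X → ℝ}

theorem exists_good_level [Nonempty X] (h : Gauge (G := G) F d) (hs : Slow d) {δ : ℝ} (hδ : 0 < δ)
    {ε : ℝ} (hε : 0 < ε) (n₀ : ℕ) :
    ∃ M, n₀ ≤ M ∧ ∃ E E' : Finset X, IsMax d M δ E ∧ IsMax d (M + 1) δ E' ∧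
      (E'.card : ℝ) ≤ (1 + ε) * E.card := by
  choose E hE using fun n => exists_max h hs n hδ
  by_contra hcon
  push Not at hcon
  have hstep : ∀ j : ℕ, (1 + ε) ^ j ≤ ((E (n₀ + j)).card : ℝ) := by
    intro j
    induction j with
    | zero =>
      have := (hE (n₀ + 0)).nonempty
      simp only [pow_zero]
      exact_mod_cast this
    | succ j ih =>
      have h1 := hcon (n₀ + j) (by omega) (E (n₀ + j)) (E (n₀ + j + 1)) (hE _) (hE _)
      rw [pow_succ, show n₀ + (j + 1) = n₀ + j + 1 by ring]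
      nlinarith
  set c := Real.log (1 + ε) / 2 with hc
  have hlog : 0 < Real.log (1 + ε) := Real.log_pos (by linarith)
  obtain ⟨n, hn, hb⟩ := hs δ hδ c (by positivity) (2 * n₀ + 1)
  obtain ⟨j, rfl⟩ : ∃ j, n = n₀ + j := ⟨n - n₀, by omega⟩
  have h1 := hb _ (hE (n₀ + j)).1
  have h2 := (hstep j).trans h1
  rw [← Real.exp_log (show (0 : ℝ) < (1 + ε) ^ j by positivity), Real.log_pow,
    Real.exp_le_exp, hc] at h2
  have h3 : (n₀ : ℝ) + 1 ≤ j := by
    have : n₀ + 1 ≤ j := by omega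
    exact_mod_cast this
  push_cast at h2
  nlinarith

/-- **The almost action** on a maximal separated set. -/
theorem exists_perms' [Nonempty X] (h : Gauge (G := G) F d) (hs : Slow d) {δ : ℝ} (hδ : 0 < δ)
    {ε : ℝ} (hε : 0 < ε) (n₀ : ℕ) :
    ∃ M, n₀ ≤ M ∧ ∃ N : ℕ, 0 < N ∧ ∃ p : Fin N → X, (∀ i j, i ≠ j → δ < d M (p i) (p j)) ∧
      ∃ ρ : G → Equiv.Perm (Fin N), ρ 1 = 1 ∧
        ∀ a ∈ F, ((univ.filter fun i => ¬ d (M + 1) (p (ρ a i)) (a⁻¹ • p i) ≤ 2 * δ).card : ℝ) ≤
          ε * N := by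
  classical
  obtain ⟨M, hM, E, E', hE, hE', hc⟩ := exists_good_level h hs hδ hε n₀
  have hN := hE.nonempty
  let e : Fin E.card ≃ {x // x ∈ E} := E.equivFin.symm
  let p : Fin E.card → X := fun i => (e i).1
  have hpE : ∀ i, p i ∈ E := fun i => (e i).2
  have hpinj : Function.Injective p := fun i j hij => e.injective (Subtype.ext hij)
  obtain ⟨ψ₀, hψ₀i, hψ₀⟩ := matching h hδ.le hE' (h.sep_mono (Nat.le_succ M) hE.1)
  have key : ∀ a : G, ∃ σ : Equiv.Perm (Fin E.card), (a = 1 → σ = 1) ∧ (a ∈ F →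
      ((univ.filter fun i => ¬ d (M + 1) (p (σ i)) (a⁻¹ • p i) ≤ 2 * δ).card : ℝ) ≤ ε * E.card) := by
    intro a
    by_cases ha1 : a = 1
    · refine ⟨1, fun _ => rfl, fun _ => ?_⟩
      have h0 : (univ.filter fun i : Fin E.card =>
          ¬ d (M + 1) (p ((1 : Equiv.Perm (Fin E.card)) i)) (a⁻¹ • p i) ≤ 2 * δ) = ∅ := by
        rw [filter_eq_empty_iff]
        intro i _
        rw [ha1, inv_one, one_smul, Equiv.Perm.one_apply, h.self]
        simp; linarith
      rw [h0]
      simp only [card_empty, Nat.cast_zero]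
      positivity
    by_cases haF : a ∈ F
    swap
    · exact ⟨1, fun h => absurd h ha1, fun h => absurd h haF⟩
    -- the translated set
    have hsepa : Sep d (M + 1) δ (E.image fun x => a⁻¹ • x) := by
      intro x hx y hy hxy
      rw [mem_image] at hx hy
      obtain ⟨x, hx, rfl⟩ := hx
      obtain ⟨y, hy, rfl⟩ := hy
      have h1 := h.shift a haF M (a⁻¹ • x) (a⁻¹ • y)
      rw [smul_inv_smul, smul_inv_smul] at h1
      exact (hE.1 x hx y hy (fun h => hxy (by rw [h]))).trans_le h1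
    obtain ⟨ψ₁, hψ₁i, hψ₁⟩ := matching h hδ.le hE' hsepa
    have hψ₁m : ∀ i, a⁻¹ • p i ∈ E.image fun x => a⁻¹ • x := fun i => mem_image_of_mem _ (hpE i)
    -- indices with an image
    let S : Finset (Fin E.card) := univ.filter fun i => ∃ j, ψ₀ (p j) = ψ₁ (a⁻¹ • p i)
    let f : Fin E.card → Fin E.card := fun i =>
      if hi : ∃ j, ψ₀ (p j) = ψ₁ (a⁻¹ • p i) then hi.choose else i
    have hf : ∀ i ∈ S, ψ₀ (p (f i)) = ψ₁ (a⁻¹ • p i) := by
      intro i hi
      have hi' : ∃ j, ψ₀ (p j) = ψ₁ (a⁻¹ • p i) := (mem_filter.1 hi).2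
      simp only [f, dif_pos hi']
      exact hi'.choose_spec
    have hfinj : Set.InjOn f S := by
      intro i hi j hj hij
      have h1 := hf i hi
      have h2 := hf j hj
      rw [hij, h2] at h1
      have h3 := hψ₁i (hψ₁m j) (hψ₁m i) h1
      have h4 : p j = p i := by
        have := congrArg (fun z => a • z) h3
        simpa using this
      exact (hpinj h4).symm
    obtain ⟨σ, hσ⟩ := Pool.Agent.H21R2.exists_perm_extend S f hfinj
    refine ⟨σ, fun h => absurd h ha1, fun _ => ?_⟩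
    have hsub : (univ.filter fun i => ¬ d (M + 1) (p (σ i)) (a⁻¹ • p i) ≤ 2 * δ) ⊆ univ \ S := by
      intro i hi
      rw [mem_filter] at hi
      rw [mem_sdiff]
      refine ⟨mem_univ _, fun hiS => hi.2 ?_⟩
      rw [hσ i hiS]
      have h1 := (hψ₀ (p (f i)) (hpE _)).2
      have h2 := (hψ₁ (a⁻¹ • p i) (hψ₁m i)).2
      have h3 := h.tri (M + 1) (p (f i)) (ψ₀ (p (f i))) (a⁻¹ • p i)
      rw [hf i hiS, h.symm (M + 1) (ψ₁ (a⁻¹ • p i))] at h3
      rw [hf i hiS] at h1
      linarith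
    have hcard : (univ \ S).card + E.card ≤ E'.card := by
      let T₁ : Finset X := (univ \ S).image fun i => ψ₁ (a⁻¹ • p i)
      let T₂ : Finset X := univ.image fun j => ψ₀ (p j)
      have c1 : T₁.card = (univ \ S).card := by
        apply card_image_of_injOn
        intro i _ j _ hij
        have h3 := hψ₁i (hψ₁m i) (hψ₁m j) hij
        have h4 : p i = p j := by
          have := congrArg (fun z => a • z) h3
          simpa using this
        exact hpinj h4
      have c2 : T₂.card = E.card := by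
        rw [card_image_of_injective]
        · simp
        · intro i j hij
          exact hpinj (hψ₀i (hpE i) (hpE j) hij)
      have c3 : Disjoint T₁ T₂ := by
        rw [disjoint_left]
        intro x hx hx'
        obtain ⟨i, hi, rfl⟩ := mem_image.1 hx
        obtain ⟨j, _, hj⟩ := mem_image.1 hx'
        rw [mem_sdiff] at hi
        exact hi.2 (mem_filter.2 ⟨mem_univ _, j, hj⟩)
      have c4 : T₁ ∪ T₂ ⊆ E' := by
        intro x hx
        rcases mem_union.1 hx with hx | hx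
        · obtain ⟨i, _, rfl⟩ := mem_image.1 hx
          exact (hψ₁ _ (hψ₁m i)).1
        · obtain ⟨j, _, rfl⟩ := mem_image.1 hx
          exact (hψ₀ _ (hpE j)).1
      have := card_le_card c4
      rw [card_union_of_disjoint c3, c1, c2] at this
      exact this
    have hcard' : ((univ \ S).card : ℝ) + E.card ≤ E'.card := by exact_mod_cast hcard
    have h5 : ((univ.filter fun i => ¬ d (M + 1) (p (σ i)) (a⁻¹ • p i) ≤ 2 * δ).card : ℝ) ≤
        ((univ \ S).card : ℝ) := by exact_mod_cast card_le_card hsub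
    linarith
  choose ρ hρ1 hρ using key
  exact ⟨M, hM, E.card, hN, p, fun i j hij => hE.1 _ (hpE i) _ (hpE j) (fun h => hij (hpinj h)),
    ρ, hρ1 1 rfl, fun a ha => hρ a ha⟩

/-- **The almost action**, with the errors measured one level lower. -/
theorem exists_perms [Nonempty X] (h : Gauge (G := G) F d) (hs : Slow d) {δ : ℝ} (hδ : 0 < δ)
    {ε : ℝ} (hε : 0 < ε) (n₀ : ℕ) :
    ∃ M, n₀ ≤ M ∧ ∃ N : ℕ, 0 < N ∧ ∃ p : Fin N → X, (∀ i j, i ≠ j → δ < d M (p i) (p j)) ∧
      ∃ ρ : G → Equiv.Perm (Fin N), ρ 1 = 1 ∧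
        ∀ a ∈ F, ((univ.filter fun i => ¬ d M (p (ρ a i)) (a⁻¹ • p i) ≤ 2 * δ).card : ℝ) ≤
          ε * N := by
  obtain ⟨M, hM, N, hN, p, hp, ρ, hρ1, hρ⟩ := exists_perms' h hs hδ hε n₀
  refine ⟨M, hM, N, hN, p, hp, ρ, hρ1, fun a ha => (Nat.cast_le.2 (card_le_card ?_)).trans (hρ a ha)⟩
  intro i hi
  rw [mem_filter] at hi ⊢
  exact ⟨hi.1, fun hh => hi.2 ((h.mono M _ _).trans hh)⟩

end

end Pool.Agent.E8helper56.ZE
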