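import Pool.Agent.E8helper56.ZE.Metric

/-!
The gauge of a finite clopen partition of a totally disconnected space.
-/

namespace Pool.Agent.E8helper56.ZE

open scoped Pointwise
open Pool.Agent.H21R2 (IsSofic IsHyperlinear)

section compact

variable {X : Type*} [MetricSpace X] [CompactSpace X]

/-- labels: points with the same label are close and close points have the same label -/
theorem exists_labels [TotallyDisconnectedSpace X] {s : ℝ} (hs : 0 < s) :
    ∃ f : X → Set X, (∀ x y, f x = f y → dist x y < s) ∧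
      ∃ ε : ℝ, 0 < ε ∧ ∀ x y, dist x y < ε → f x = f y := by
  classical
  have h1 : ∀ x : X, ∃ V : Set X, IsClopen V ∧ x ∈ V ∧ V ⊆ Metric.ball x (s / 2) := fun x =>
    compact_exists_isClopen_in_isOpen Metric.isOpen_ball (Metric.mem_ball_self (by positivity))
  choose V hV hxV hVs using h1
  obtain ⟨t, ht⟩ := isCompact_univ.elim_finite_subcover V (fun x => (hV x).isOpen)
    (fun x _ => Set.mem_iUnion.2 ⟨x, hxV x⟩)
  have h2 : ∀ i : X, ∃ ε : ℝ, 0 < ε ∧ ∀ x y, dist x y < ε → x ∈ V i → y ∈ V i := by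
    intro i
    obtain ⟨ε, hε, h⟩ := (hV i).isClosed.isCompact.exists_thickening_subset_open (hV i).isOpen
      le_rfl
    refine ⟨ε, hε, fun x y hxy hx => h ?_⟩
    rw [Metric.mem_thickening_iff]
    exact ⟨x, hx, by rwa [dist_comm]⟩
  choose e he hee using h2
  refine ⟨fun x => {i | i ∈ t ∧ x ∈ V i}, ?_, ?_⟩
  · intro x y hxy
    have hx := ht (Set.mem_univ x)
    rw [Set.mem_iUnion₂] at hx
    obtain ⟨i, hi, hxi⟩ := hx
    have h3 : i ∈ (fun x => {i | i ∈ t ∧ x ∈ V i}) x := ⟨hi, hxi⟩
    rw [hxy] at h3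
    have h4 := hVs i hxi
    have h5 := hVs i h3.2
    rw [Metric.mem_ball] at h4 h5
    have := dist_triangle_right x y i
    linarith
  · obtain ⟨ε, hε, hεt⟩ : ∃ ε : ℝ, 0 < ε ∧ ∀ i ∈ t, ε ≤ e i := by
      rcases t.eq_empty_or_nonempty with h0 | h0
      · exact ⟨1, one_pos, by rw [h0]; simp⟩
      · obtain ⟨i, _, hi⟩ := t.exists_min_image e h0
        exact ⟨e i, he i, hi⟩
    refine ⟨ε, hε, fun x y hxy => ?_⟩
    ext i
    constructor
    · rintro ⟨hi, hx⟩
      exact ⟨hi, hee i x y (hxy.trans_le (hεt i hi)) hx⟩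
    · rintro ⟨hi, hx⟩
      exact ⟨hi, hee i y x ((by rwa [dist_comm] : dist y x < ε).trans_le (hεt i hi)) hx⟩

variable {G : Type*} [Group G] [MulAction G X] [ContinuousConstSMul G X]

omit [MetricSpace X] [CompactSpace X] [ContinuousConstSMul G X] in
theorem bd01 {m : X → X → ℝ} {F : Set G} (h01 : ∀ x y, m x y = 0 ∨ m x y = 1)
    (n : ℕ) (x y : X) : bd m F n x y = 0 ∨ bd m F n x y = 1 := by
  have hm0 : ∀ x y, 0 ≤ m x y := fun x y => by rcases h01 x y with h | h <;> rw [h] <;> norm_num
  have hm1 : ∀ x y, m x y ≤ 1 := fun x y => by rcases h01 x y with h | h <;> rw [h] ; norm_num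
  by_cases h : ∃ γ ∈ F ^ n, m (γ • x) (γ • y) = 1
  · right
    obtain ⟨γ, hγ, h⟩ := h
    apply le_antisymm
    · exact bd_le hm0 zero_le_one fun γ _ => hm1 _ _
    · rw [← h]; exact le_bd hm1 hγ
  · left
    push Not at h
    apply le_antisymm
    · refine bd_le hm0 le_rfl fun γ hγ => ?_
      rcases h01 (γ • x) (γ • y) with h' | h'
      · exact h'.le
      · exact absurd h' (h γ hγ)
    · exact Real.iSup_nonneg fun γ => hm0 _ _

theorem localZ_of_zero [TotallyDisconnectedSpace X] (hz : ZeroEntropy G X) (g : G)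
    (hg : ∀ x : X, ∃ h : G, g • h • x ≠ h • x) : LocalZ G X g := by
  classical
  obtain ⟨H, s, hs, hH⟩ := exists_uniform g hg
  obtain ⟨f, hf1, ε, hε, hf2⟩ := exists_labels (X := X) hs
  let m : X → X → ℝ := fun x y => if f x = f y then 0 else 1
  have h01 : ∀ x y, m x y = 0 ∨ m x y = 1 := by
    intro x y
    by_cases h : f x = f y
    · left; simp [m, h]
    · right; simp [m, h]
  have hm0 : ∀ x y, 0 ≤ m x y := fun x y => by rcases h01 x y with h | h <;> rw [h] <;> norm_num
  have hm1 : ∀ x y, m x y ≤ 1 := fun x y => by rcases h01 x y with h | h <;> rw [h] ; norm_num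
  refine ⟨H, fun A => ?_⟩
  let F : Finset G := A ∪ A.image (fun a => a⁻¹) ∪ {1}
  refine ⟨(F : Set G), bd m (F : Set G), ?_, ?_, ?_, ?_, ?_⟩
  · intro a ha
    constructor
    · rw [Finset.mem_coe, Finset.mem_union, Finset.mem_union]; exact Or.inl (Or.inl ha)
    · rw [Finset.mem_coe, Finset.mem_union, Finset.mem_union]
      exact Or.inl (Or.inr (Finset.mem_image_of_mem _ ha))
  · refine gauge_bd hm0 hm1 (fun x => by simp [m]) (fun x y => ?_) (fun x y z => ?_)
      (by rw [Finset.mem_coe, Finset.mem_union]; exact Or.inr (Finset.mem_singleton_self 1))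
    · by_cases h : f x = f y
      · simp [m, h]
      · simp [m, h, Ne.symm h]
    · by_cases h : f x = f z
      · have : m x z = 0 := by simp [m, h]
        rw [this]; exact add_nonneg (hm0 _ _) (hm0 _ _)
      · by_cases h' : f x = f y
        · have h'' : f y ≠ f z := fun hh => h (h'.trans hh)
          have e1 : m x z = 1 := by simp [m, h]
          have e2 : m y z = 1 := by simp [m, h'']
          have := hm0 x y
          linarith
        · have e1 : m x z = 1 := by simp [m, h]
          have e2 : m x y = 1 := by simp [m, h']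
          have := hm0 y z
          linarith
  · refine slow_bd hz F hm0 fun δ hδ => ⟨ε, hε, fun x y h => ?_⟩
    by_contra hcon
    push Not at hcon
    have := hf2 x y hcon
    simp only [m, this, if_true] at h
    linarith
  · exact bd01 h01
  · intro x
    obtain ⟨h, hh, hx⟩ := hH x
    refine ⟨h, hh, ?_⟩
    rw [bd_zero hm0 hm1]
    have : f (g⁻¹ • h⁻¹ • x) ≠ f (h⁻¹ • x) := fun heq => by
      have := hf1 _ _ heq
      linarith
    simp [m, this]

end compact

end Pool.Agent.E8helper56.ZE
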